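import Pool.Agent.H71.PY.Fin
import Pool.Agent.H87.PZ.Fin

/-!
# Block T (`tail_g` of H15/G1/Blk.lean)
-/

set_option autoImplicit false

open MeasureTheory Set Filter Topology Pool.Agent.H25.Kin Pool.Agent.H82.BK Pool.Agent.H82.CM
open Pool.Agent.H48.PL Pool.Agent.H48.PI Pool.Agent.H48.PW Pool.Agent.H85.UP Pool.Agent.H15.G1

namespace Pool.Agent.H71.PY

variable {d : ℕ} {s a m C Ca cb : ℝ} {b : ℝ → ℝ}

/-- block T: the tail property of the density, `0 ≤ a` -/
theorem tail_g (HL : HypL d (1 + a) s b C Ca cb) (E : GE s a m) : TailR d a m b := by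
  have hs1 : s < 1 := by
    have h1 := E.hm
    have h2 := E.hs
    have h3 := E.hm1
    have h4 := E.ha
    linarith
  have ha1 : a ≤ 1 := by
    have h1 := E.hm
    have h2 := E.hs
    have h3 := E.hm1
    linarith
  exact tail_of HL E (τ := 1) ha1 le_rfl fun A₁ hA₁ =>
    Pool.Agent.H87.PZ.err_cg HL E hs1 le_rfl ha1 A₁ hA₁

end Pool.Agent.H71.PY
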