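import Pool.Agent.H71.PY.EntYF
import Pool.Agent.H71.PX.YC
import Pool.Agent.H87.PE.Drop

/-!
# Module TimBY (copy of PX/TimBM, `0 ≤ a`): the entropy inequality in time

For every `η > 0` take `δ'` small in `ent_fiberMW` (the class `Cl` from `sol_unice` on `[r,t]`) and in `drop_lim`, and integrate.
-/

set_option autoImplicit false

open MeasureTheory Set Filter Topology Pool.Agent.H25.Kin Pool.Agent.H82.BK Pool.Agent.H82.CM
open Pool.Agent.H48.PL Pool.Agent.H48.PI Pool.Agent.H25.PT Pool.Agent.H48.PW Pool.Agent.H87.PE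
open Pool.Agent.H15.AV (UNice gau sol_unice)
open Pool.Agent.H71.PX

namespace Pool.Agent.H71.PY

variable {d : ℕ} {s a m C Ca cb : ℝ} {b : ℝ → ℝ}

private lemma tb_i {X Y J : Vec d → ℝ} {C₂ η : ℝ} (iX : Integrable X (muD d))
    (iY : Integrable Y (muD d)) (iJ : Integrable J (muD d)) (h : ∀ x, X x ≤ C₂ * Y x + C₂ * J x + η) :
    ∫ x, X x ∂(muD d) ≤ C₂ * (∫ x, Y x ∂(muD d)) + C₂ * (∫ x, J x ∂(muD d)) + η := by
  have h1 : Integrable (fun x => C₂ * Y x + C₂ * J x) (muD d) := (iY.const_mul C₂).add (iJ.const_mul C₂)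
  have h2 : Integrable (fun x => C₂ * Y x + C₂ * J x + η) (muD d) := h1.add (integrable_const _)
  refine (integral_mono iX h2 h).trans (le_of_eq ?_)
  rw [integral_add h1 (integrable_const _), integral_add (iY.const_mul C₂) (iJ.const_mul C₂),
    integral_const_mul, integral_const_mul, integral_const]
  have h3 : (muD d).real univ = 1 := by
    rw [Measure.real, muD_univ]
    rfl
  rw [h3, one_smul]

private lemma tb_t {X Y J : ℝ → ℝ} {C₂ η r t : ℝ} (hrt : r ≤ t)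
    (iX : IntervalIntegrable X volume r t) (iY : IntervalIntegrable Y volume r t)
    (iJ : IntervalIntegrable J volume r t) (h : ∀ τ ∈ Icc r t, X τ ≤ C₂ * Y τ + C₂ * J τ + η) :
    ∫ τ in r..t, X τ ≤ C₂ * (∫ τ in r..t, Y τ) + C₂ * (∫ τ in r..t, J τ) + η * (t - r) := by
  have h1 : IntervalIntegrable (fun τ => C₂ * Y τ + C₂ * J τ) volume r t :=
    (iY.const_mul C₂).add (iJ.const_mul C₂)
  have h2 := intervalIntegral.integral_mono_on hrt iX (h1.add intervalIntegrable_const) h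
  rw [intervalIntegral.integral_add h1 intervalIntegrable_const,
    intervalIntegral.integral_add (iY.const_mul C₂) (iJ.const_mul C₂),
    intervalIntegral.integral_const_mul, intervalIntegral.integral_const_mul,
    intervalIntegral.integral_const, smul_eq_mul] at h2
  linarith

theorem ent_timeM (HL : HypL d (1 + a) s b C Ca cb) (ha : 0 ≤ a) (ha1 : a ≤ 1) (hm0 : 0 < m)
    (hm1 : m ≤ 1) (e : Fin d) {δ : ℝ} (hδ : 0 < δ) (hδ1 : δ < 1) : ∃ ε₁ C₂ : ℝ, 0 < ε₁ ∧ 0 ≤ C₂ ∧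
    ∀ (T : ℝ) (f : ℝ → Vec d → Vec d → ℝ), IsBoltzmannSol (1 + a) b T f →
      ∀ V : ℝ, 1 ≤ V → ∀ r t : ℝ, 0 < r → r ≤ t → t < T →
      ∫ τ in r..t, (∫ x, YW a m V (f τ x) (CmpS δ ∩ (NtM e ε₁ (kpa s m))ᶜ) ∂(muD d)) ≤
        C₂ * (∫ τ in r..t, (∫ x, YW a m V (f τ x) (CmpS (δ / 2) ∩ NtM e ε₁ (kpa s m)) ∂(muD d))) +
          C₂ * (Hs (f r) - Hs (f t)) := by
  obtain ⟨ε₁, C₂, hε₁, hC₂, hfib⟩ := ent_fiberMW HL ha ha1 hm0 hm1 e hδ hδ1
  refine ⟨ε₁, C₂, hε₁, hC₂, fun T f hf V hV r t hr hrt ht => ?_⟩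
  have hf' : IsClassicalSol T (fun t x => boltzQ (1 + a) b (f t x)) f := hf
  have hA : MeasurableSet (CmpS δ ∩ (NtM e ε₁ (kpa s m))ᶜ : Set (Vec d × Vec d)) :=
    (measurableSet_CmpS δ).inter (measurableSet_NtM e ε₁ _).compl
  have hB : MeasurableSet (CmpS (δ / 2) ∩ NtM e ε₁ (kpa s m) : Set (Vec d × Vec d)) :=
    (measurableSet_CmpS (δ / 2)).inter (measurableSet_NtM e ε₁ _)
  obtain ⟨a1, a2, a3⟩ := wt_om (d := d) hm1 hV hA
  obtain ⟨b1, b2, b3⟩ := wt_om (d := d) hm1 hV hB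
  have hsub : ∀ τ ∈ Icc r t, τ ∈ Ioo 0 T := fun τ hτ => ⟨hr.trans_le hτ.1, hτ.2.trans_lt ht⟩
  have hsub2 : ∀ τ ∈ Icc r t, τ ∈ Ico 0 T := fun τ hτ => ⟨(hsub τ hτ).1.le, (hsub τ hτ).2⟩
  have iA : ∀ τ ∈ Icc r t, Integrable (fun x => YW a m V (f τ x) (CmpS δ ∩ (NtM e ε₁ (kpa s m))ᶜ))
      (muD d) := fun τ hτ => by
    simp only [YW_eq_YG hA]
    exact YG_int ha ha1 hm1 hf' a1 a2 a3 (hsub2 τ hτ)
  have iB : ∀ τ ∈ Icc r t, Integrable (fun x => YW a m V (f τ x) (CmpS (δ / 2) ∩ NtM e ε₁ (kpa s m)))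
      (muD d) := fun τ hτ => by
    simp only [YW_eq_YG hB]
    exact YG_int ha ha1 hm1 hf' b1 b2 b3 (hsub2 τ hτ)
  have cA : IntervalIntegrable (fun τ => ∫ x, YW a m V (f τ x) (CmpS δ ∩ (NtM e ε₁ (kpa s m))ᶜ)
      ∂(muD d)) volume r t := by
    refine ContinuousOn.intervalIntegrable_of_Icc hrt ?_
    simp only [YW_eq_YG hA]
    exact (YGt_cont ha ha1 hm1 hf' a1 a2 a3).mono hsub2
  have cB : IntervalIntegrable (fun τ => ∫ x, YW a m V (f τ x) (CmpS (δ / 2) ∩ NtM e ε₁ (kpa s m))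
      ∂(muD d)) volume r t := by
    refine ContinuousOn.intervalIntegrable_of_Icc hrt ?_
    simp only [YW_eq_YG hB]
    exact (YGt_cont ha ha1 hm1 hf' b1 b2 b3).mono hsub2
  refine le_of_forall_pos_le_add fun η hη => ?_
  have hts : 0 < 2 * (t - r) + 2 := by linarith
  set η₁ : ℝ := η / (2 * (t - r) + 2) with hη₁
  set η₂ : ℝ := η / (2 * C₂ + 2) with hη₂
  have p1 : 0 < η₁ := div_pos hη hts
  have p2 : 0 < η₂ := div_pos hη (by linarith)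
  have q1 : η₁ * (t - r) ≤ η / 2 := by
    rw [hη₁, div_mul_eq_mul_div, div_le_iff₀ hts]
    nlinarith
  have q2 : C₂ * η₂ ≤ η / 2 := by
    rw [hη₂, mul_div_assoc', div_le_iff₀ (by linarith)]
    nlinarith
  obtain ⟨Cl, hCl⟩ := sol_unice hf' hr ht
  obtain ⟨δa, hδa, hh⟩ := hfib Cl η₁ p1
  obtain ⟨δb, hδb, hD⟩ := drop_lim HL.H hf hr hrt ht p2
  set δ' : ℝ := min (min δa δb) 1 with hδ'
  have hδ'0 : 0 < δ' := lt_min (lt_min hδa hδb) one_pos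
  have hδ'a : δ' ∈ Ioc (0 : ℝ) δa := ⟨hδ'0, (min_le_left _ _).trans (min_le_left _ _)⟩
  have hδ'b : δ' ∈ Ioc (0 : ℝ) δb := ⟨hδ'0, (min_le_left _ _).trans (min_le_right _ _)⟩
  have hδ'1 : δ' ≤ 1 := min_le_right _ _
  have iJ : ∀ τ ∈ Icc r t, Integrable (fun x => Dn (1 + a) b δ' (f τ x)) (muD d) := fun τ hτ =>
    Dn_int HL.H hf hδ'0 hδ'1 (hsub τ hτ)
  have cJ : IntervalIntegrable (fun τ => ∫ x, Dn (1 + a) b δ' (f τ x) ∂(muD d)) volume r t :=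
    ContinuousOn.intervalIntegrable_of_Icc hrt ((Dn_cont HL.H hf hδ'0 hδ'1).mono hsub)
  have key : ∀ τ ∈ Icc r t, ∫ x, YW a m V (f τ x) (CmpS δ ∩ (NtM e ε₁ (kpa s m))ᶜ) ∂(muD d) ≤
      C₂ * (∫ x, YW a m V (f τ x) (CmpS (δ / 2) ∩ NtM e ε₁ (kpa s m)) ∂(muD d)) +
        C₂ * (∫ x, Dn (1 + a) b δ' (f τ x) ∂(muD d)) + η₁ := fun τ hτ => by
    refine tb_i (iA τ hτ) (iB τ hτ) (iJ τ hτ) fun x => ?_
    have h1 := hh δ' hδ'a (f τ x) (hCl τ hτ x) V hV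
    unfold Dn
    linarith
  have h1 := tb_t hrt cA cB cJ key
  have h2 := (abs_le.1 (hD δ' hδ'b)).2
  have h3 := mul_le_mul_of_nonneg_left h2 hC₂
  have e1 : C₂ * ((∫ τ in r..t, (∫ x, Dn (1 + a) b δ' (f τ x) ∂(muD d))) - (Hs (f r) - Hs (f t))) =
      C₂ * (∫ τ in r..t, (∫ x, Dn (1 + a) b δ' (f τ x) ∂(muD d))) - C₂ * (Hs (f r) - Hs (f t)) := by
    ring
  rw [e1] at h3
  linarith

end Pool.Agent.H71.PY
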