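import Pool.Agent.H71.PY.Defs
import Pool.Agent.H71.PX.YB

/-!
# Module Near: the pairs with `|v-w| < ρ` are negligible as `ρ → 0`

`|V| < ρ ≤ 1`: `|V|^(1+a) ⟨V⟩^m ≤ 2 ρ`, and `∫ g ≤ C ∫ (1+‖v‖)^(-d-1)` for the functions `g` of a class `UNice Cl`.
-/

set_option autoImplicit false

open MeasureTheory Set Filter Topology Pool.Agent.H25.Kin
open Pool.Agent.H48.PL Pool.Agent.H48.PI Pool.Agent.H25.PT Pool.Agent.H48.PW Pool.Agent.H71.PX
open Pool.Agent.H15.AV (UNice gau)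

namespace Pool.Agent.H71.PY

variable {d : ℕ} {a m : ℝ}

lemma measurableSet_FarS (r : ℝ) : MeasurableSet (FarS d r) :=
  measurableSet_le measurable_const
    (continuous_len.comp (by fun_prop : Continuous fun p : Vec d × Vec d => p.1 - p.2)).measurable

private lemma near_g {Cl : ℕ → ℝ} {g : Vec d → ℝ} (hg : UNice Cl g) (v : Vec d) :
    g v ≤ max (Cl (d + 1)) 0 * wt d v := by
  have h1 := hg.le (d + 1) v
  have h2 : 0 < (1 + ‖v‖) ^ (d + 1) := pow_pos (w_pos v) _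
  have h3 : (1 + ‖v‖) ^ (d + 1) * g v ≤
      (1 + ‖v‖) ^ (d + 1) * (g v + ‖fderiv ℝ g v‖ + ‖fderiv ℝ (fderiv ℝ g) v‖) :=
    mul_le_mul_of_nonneg_left (by
      have := norm_nonneg (fderiv ℝ g v)
      have := norm_nonneg (fderiv ℝ (fderiv ℝ g) v)
      linarith) h2.le
  have h4 : Cl (d + 1) ≤ max (Cl (d + 1)) 0 := le_max_left _ _
  unfold wt
  rw [← div_eq_mul_inv, le_div_iff₀ h2]
  linarith

/-- the near pairs -/
theorem YW_near (ha : 0 ≤ a) (ha1 : a ≤ 1) (hm1 : m ≤ 1) (Cl : ℕ → ℝ) :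
    ∃ K : ℝ, 0 ≤ K ∧ ∀ ρ : ℝ, 0 < ρ → ρ ≤ 1 → ∀ V : ℝ, 1 ≤ V → ∀ g : Vec d → ℝ, UNice Cl g →
      ∀ A : Set (Vec d × Vec d), MeasurableSet A →
        YW a m V g A ≤ YW a m V g (A ∩ FarS d ρ) + K * ρ := by
  set B : ℝ := max (Cl (d + 1)) 0 with hB
  have hB0 : 0 ≤ B := le_max_right _ _
  have hI1 : 0 ≤ ∫ z, wt d z := integral_nonneg fun z => wt_nonneg z
  refine ⟨2 * (B * B) * ((∫ z, wt d z) * ∫ z, wt d z), by positivity, fun ρ hρ hρ1 V hV g hg A hA => ?_⟩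
  have hI := YW_integrable ha ha1 hm1 hV hg.nice.rd hg.nice.cont
  have h1 : YW a m V g A = YW a m V g (A ∩ FarS d ρ) +
      ∫ p in A \ FarS d ρ, dn a m g p * om m V (RR p.1 p.2) := by
    unfold YW
    exact (integral_inter_add_sdiff (measurableSet_FarS ρ) hI.integrableOn).symm
  have iw : Integrable fun p : Vec d × Vec d => wt d p.1 * wt d p.2 :=
    (integrable_wt (d := d)).mul_prod integrable_wt
  have h2 : ∫ p in A \ FarS d ρ, dn a m g p * om m V (RR p.1 p.2) ≤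
      ∫ p in A \ FarS d ρ, 2 * ρ * (B * B) * (wt d p.1 * wt d p.2) := by
    refine setIntegral_mono_on hI.integrableOn (iw.const_mul _).integrableOn
      (hA.diff (measurableSet_FarS ρ)) fun p hp => ?_
    have hlt : len (p.1 - p.2) < ρ := not_le.1 hp.2
    have hl0 : 0 ≤ len (p.1 - p.2) := len_nonneg _
    have hj1 := one_le_jb (p.1 - p.2)
    have e1 : len (p.1 - p.2) ^ (1 + a) ≤ ρ := by
      have f1 : len (p.1 - p.2) ^ (1 + a) ≤ ρ ^ (1 + a) := Real.rpow_le_rpow hl0 hlt.le (by linarith)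
      have f2 : ρ ^ (1 + a) ≤ ρ ^ (1 : ℝ) := Real.rpow_le_rpow_of_exponent_ge hρ hρ1 (by linarith)
      rw [Real.rpow_one] at f2
      exact f1.trans f2
    have e2 : jb (p.1 - p.2) ≤ 2 := by
      refine le_of_sq_le_sq ?_ (by norm_num)
      rw [jb_sq, ← len_sq]
      nlinarith
    have e3 : jb (p.1 - p.2) ^ m ≤ 2 := by
      have f1 : jb (p.1 - p.2) ^ m ≤ jb (p.1 - p.2) ^ (1 : ℝ) :=
        Real.rpow_le_rpow_of_exponent_le hj1 hm1
      rw [Real.rpow_one] at f1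
      exact f1.trans e2
    have e4 : len (p.1 - p.2) ^ (1 + a) * jb (p.1 - p.2) ^ m ≤ ρ * 2 :=
      mul_le_mul e1 e3 (Real.rpow_nonneg (by linarith) _) hρ.le
    have e5 : om m V (RR p.1 p.2) ≤ 1 := om_le_one hm1 (by linarith) (RR_pos _ _).le
    have e6 : 0 ≤ om m V (RR p.1 p.2) := om_nonneg (by linarith) (RR_pos _ _).le
    have g1 := near_g hg p.1
    have g2 := near_g hg p.2
    have g3 := hg.nonneg p.1
    have g4 := hg.nonneg p.2
    have e7 : g p.1 * g p.2 ≤ (B * wt d p.1) * (B * wt d p.2) :=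
      mul_le_mul g1 g2 g4 (g3.trans g1)
    have e8 : 0 ≤ len (p.1 - p.2) ^ (1 + a) * jb (p.1 - p.2) ^ m :=
      mul_nonneg (Real.rpow_nonneg hl0 _) (Real.rpow_nonneg (by linarith) _)
    have e9 : dn a m g p ≤ (B * wt d p.1) * (B * wt d p.2) * (ρ * 2) := by
      unfold dn
      exact mul_le_mul e7 e4 e8 ((mul_nonneg g3 g4).trans e7)
    have e10 : 0 ≤ dn a m g p := by
      unfold dn
      exact mul_nonneg (mul_nonneg g3 g4) e8
    calc dn a m g p * om m V (RR p.1 p.2) ≤ dn a m g p * 1 := mul_le_mul_of_nonneg_left e5 e10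
      _ ≤ (B * wt d p.1) * (B * wt d p.2) * (ρ * 2) := by rw [mul_one]; exact e9
      _ = _ := by ring
  have h3 : ∫ p in A \ FarS d ρ, 2 * ρ * (B * B) * (wt d p.1 * wt d p.2) ≤
      2 * ρ * (B * B) * ((∫ z, wt d z) * ∫ z, wt d z) := by
    have f1 : ∫ p in A \ FarS d ρ, 2 * ρ * (B * B) * (wt d p.1 * wt d p.2) ≤
        ∫ p : Vec d × Vec d, 2 * ρ * (B * B) * (wt d p.1 * wt d p.2) :=
      setIntegral_le_integral (iw.const_mul _) (Eventually.of_forall fun p => by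
        have := wt_nonneg p.1
        have := wt_nonneg p.2
        positivity)
    refine f1.trans (le_of_eq ?_)
    rw [integral_const_mul, Measure.volume_eq_prod, integral_prod_mul]
  rw [h1]
  have h4 : 2 * ρ * (B * B) * ((∫ z, wt d z) * ∫ z, wt d z) =
      2 * (B * B) * ((∫ z, wt d z) * ∫ z, wt d z) * ρ := by ring
  linarith

end Pool.Agent.H71.PY
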