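import Pool.Agent.H71.PY.FibY
import Pool.Agent.H71.PY.TimBY
import Pool.Agent.H71.PY.Near
import Pool.Agent.H25.PT.SliV
import Pool.Agent.H48.PL.CSolP
import Pool.Agent.H48.PI.DnC
import Pool.Agent.H25.PT.TimBV

/-!
# Module TimCY: the pair functional in time (PX/TimCM with `TVR`, `ρ` the cut-off parameter; `ρ → 0` at the end: YW_near)

-/

set_option autoImplicit false

open MeasureTheory Set Filter Topology Pool.Agent.H25.Kin Pool.Agent.H82.BK Pool.Agent.H82.CM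
open Pool.Agent.H48.PL Pool.Agent.H48.PI Pool.Agent.H25.PT Pool.Agent.H48.PW Pool.Agent.H87.PE
open Pool.Agent.H15.AV (UNice gau sol_unice)
open Pool.Agent.H71.PX Pool.Agent.H15.G1

namespace Pool.Agent.H71.PY

variable {d : ℕ} {s a m κ ε ρ C Ca cb : ℝ} {b : ℝ → ℝ}

/-- the lower bound of the quadratic form with weight `V_e Tv` -/
private lemma timC_low (E : EY a m κ) (hε : 0 < ε) (hρ : 0 < ρ) (e : Fin d) {V : ℝ} (hV : 1 ≤ V) {c : ℝ}
    {A : Set (Vec d × Vec d)} (hA : MeasurableSet A)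
    (hc : ∀ v w : Vec d, (v, w) ∈ A →
      c * (len (v - w) ^ (1 + a) * jb (v - w) ^ m * om m V (RR v w)) ≤ (v e - w e) * TVR e a m κ ε ρ V v w)
    {g : Vec d → ℝ} (hg : RD g) (hgc : Continuous g) (hg0 : ∀ v, 0 ≤ g v) :
    c * YW a m V g A ≤ ∫ v, g v * ∫ w, (v e - w e) * TVR e a m κ ε ρ V v w * g w := by
  obtain ⟨hm0, hm1', ha1', -⟩ := E.facts
  have ha0 : 0 ≤ a := E.ha
  have ha1 : a ≤ 1 := ha1'.le
  have hm1 : m ≤ 1 := hm1'.le
  obtain ⟨B, hB, hBle⟩ := VTVR_le (d := d) (ε := ε) E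
  obtain ⟨Ψ, hΨ⟩ : ∃ Ψ : Vec d × Vec d → ℝ, ∀ p,
      Ψ p = g p.1 * ((p.1 e - p.2 e) * TVR e a m κ ε ρ V p.1 p.2 * g p.2) := ⟨_, fun _ => rfl⟩
  have hΨc : Continuous Ψ := by
    have h1 : Continuous fun p : Vec d × Vec d => (p.1 e - p.2 e) * TVR e a m κ ε ρ V p.1 p.2 :=
      ((TVR_PGW E hε hρ e hV).vmul e).cont
    have h2 : Continuous fun p : Vec d × Vec d => g p.1 := hgc.comp continuous_fst
    have h3 : Continuous fun p : Vec d × Vec d => g p.2 := hgc.comp continuous_snd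
    have h4 : Ψ = fun p : Vec d × Vec d =>
        g p.1 * ((p.1 e - p.2 e) * TVR e a m κ ε ρ V p.1 p.2 * g p.2) := funext hΨ
    rw [h4]
    exact h2.mul (h1.mul h3)
  have hΨ0 : ∀ p, 0 ≤ Ψ p := fun p => by
    rw [hΨ]
    exact mul_nonneg (hg0 _) (mul_nonneg (VTVR_nonneg hρ e hV _ _) (hg0 _))
  have hj : Integrable (fun v => g v * jb v ^ 2) := by
    have h1 : PG (fun v : Vec d => jb v ^ 2) := by
      have h2 : (fun v : Vec d => jb v ^ 2) = fun v => 1 + nsq v := funext jb_sq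
      rw [h2]
      exact (PG.const (1 : ℝ)).add PG.nsq
    exact (hg.mul_PG h1).integrable (hgc.mul (jb_cont.pow 2)).aestronglyMeasurable
  have hb : Integrable (fun p : Vec d × Vec d =>
      B * V ^ (-1 : ℝ) * ((g p.1 * jb p.1 ^ 2) * (g p.2 * jb p.2 ^ 2))) := (hj.mul_prod hj).const_mul _
  have hΨi : Integrable Ψ := by
    refine hb.mono' hΨc.aestronglyMeasurable (Eventually.of_forall fun p => ?_)
    rw [Real.norm_eq_abs, abs_of_nonneg (hΨ0 p), hΨ]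
    have h1 := hBle ρ hρ e V hV p.1 p.2
    calc g p.1 * ((p.1 e - p.2 e) * TVR e a m κ ε ρ V p.1 p.2 * g p.2)
        = g p.1 * g p.2 * ((p.1 e - p.2 e) * TVR e a m κ ε ρ V p.1 p.2) := by ring
      _ ≤ g p.1 * g p.2 * (B * V ^ (-1 : ℝ) * (jb p.1 ^ 2 * jb p.2 ^ 2)) :=
          mul_le_mul_of_nonneg_left h1 (mul_nonneg (hg0 _) (hg0 _))
      _ = _ := by ring
  have e1 : ∫ p, Ψ p = ∫ v, g v * ∫ w, (v e - w e) * TVR e a m κ ε ρ V v w * g w := by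
    have h1 : ∫ p, Ψ p ∂((volume : Measure (Vec d)).prod (volume : Measure (Vec d))) =
        ∫ v, ∫ w, Ψ (v, w) := integral_prod _ hΨi
    rw [Measure.volume_eq_prod, h1]
    refine integral_congr_ae (Eventually.of_forall fun v => ?_)
    simp only [hΨ]
    rw [integral_const_mul]
  rw [← e1]
  have hd := YW_integrable ha0 ha1 hm1 hV hg hgc
  have h1 : c * YW a m V g A = ∫ p in A, c * (dn a m g p * om m V (RR p.1 p.2)) :=
    (integral_const_mul _ _).symm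
  rw [h1]
  refine (setIntegral_mono_on (hd.integrableOn.const_mul c) hΨi.integrableOn hA
    (fun p hp => ?_)).trans (setIntegral_le_integral hΨi (Eventually.of_forall hΨ0))
  have h2 := hc p.1 p.2 hp
  rw [hΨ]
  show c * (g p.1 * g p.2 * (len (p.1 - p.2) ^ (1 + a) * jb (p.1 - p.2) ^ m) *
    om m V (RR p.1 p.2)) ≤ _
  calc c * (g p.1 * g p.2 * (len (p.1 - p.2) ^ (1 + a) * jb (p.1 - p.2) ^ m) *
        om m V (RR p.1 p.2))
      = g p.1 * g p.2 * (c * (len (p.1 - p.2) ^ (1 + a) * jb (p.1 - p.2) ^ m *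
        om m V (RR p.1 p.2))) := by ring
    _ ≤ g p.1 * g p.2 * ((p.1 e - p.2 e) * TVR e a m κ ε ρ V p.1 p.2) :=
        mul_le_mul_of_nonneg_left h2 (mul_nonneg (hg0 _) (hg0 _))
    _ = _ := by ring


private lemma timC_Dn {T : ℝ} {f : ℝ → Vec d → Vec d → ℝ} {γ : ℝ} (hf : IsBoltzmannSol γ b T f)
    {e : Fin d} (hpl : Planar e T f) {δ : ℝ} (hδ : 0 < δ) {t : ℝ} (ht : t ∈ Ioo 0 T) :
    PlF e (fun x => Dn γ b δ (f t x)) := by
  have ht' : t ∈ Ico 0 T := ⟨ht.1.le, ht.2⟩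
  refine ⟨?_, fun x i => ?_, fun x y h => ?_⟩
  · have h2 : Continuous fun x : Vec d => (t, x) := by fun_prop
    have h3 := (Dn_cont' hf hδ).1.comp_continuous h2 fun x => ⟨ht, mem_univ _⟩
    simp only [Function.comp_def] at h3
    exact h3
  · have h2 : f t (x + Pi.single i 1) = f t x := by
      funext v
      exact hf.periodic t ht' x v i
    simp only [h2]
  · have h2 : f t x = f t y := by
      funext v
      exact hpl t ht' x y v h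
    simp only [h2]

private lemma plF_add {e : Fin d} {A B : Vec d → ℝ} (hA : PlF e A) (hB : PlF e B) :
    PlF e fun x => A x + B x :=
  ⟨hA.cont.add hB.cont, fun x i => by rw [hA.per, hB.per], fun x y h => by rw [hA.pl x y h, hB.pl x y h]⟩

private lemma plF_const {e : Fin d} (c : ℝ) : PlF e fun _ : Vec d => c :=
  ⟨continuous_const, fun _ _ => rfl, fun _ _ _ => rfl⟩

private lemma plF_mul {e : Fin d} (c : ℝ) {A : Vec d → ℝ} (hA : PlF e A) : PlF e fun x => c * A x :=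
  ⟨hA.cont.const_mul c, fun x i => by rw [hA.per], fun x y h => by rw [hA.pl x y h]⟩

private lemma muD_real : (muD d).real univ = 1 := by
  rw [Measure.real, muD_univ]
  rfl

/-- integration in `x` of the four parts -/
private lemma timC_x {Y D Z : Vec d → ℝ} {c η : ℝ} (iY : Integrable Y (muD d))
    (iD : Integrable D (muD d)) (iZ : Integrable Z (muD d)) :
    ∫ x, (Y x + D x + c * Z x + η) ∂(muD d) =
      (∫ x, Y x ∂(muD d)) + (∫ x, D x ∂(muD d)) + c * (∫ x, Z x ∂(muD d)) + η := by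
  have h1 : Integrable (fun x => Y x + D x) (muD d) := iY.add iD
  have h2 : Integrable (fun x => Y x + D x + c * Z x) (muD d) := h1.add (iZ.const_mul c)
  rw [integral_add h2 (integrable_const _), integral_add h1 (iZ.const_mul c), integral_add iY iD,
    integral_const_mul, integral_const, muD_real, one_smul]

private theorem pair_timeR (HL : HypL d (1 + a) s b C Ca cb) (h1 : 2 * s < m) (E : EY a m (kpa s m))
    {τ₀ : ℝ} (hτ₀ : a ≤ τ₀) (hτ₁ : τ₀ ≤ 1) (hErr : ErrC d a m τ₀ b) (e : Fin d)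
    {δ ε₁ : ℝ} (hδ : 0 < δ) (hδ1 : δ < 1) (hε₁ : 0 < ε₁) : ∃ c K : ℝ, 0 < c ∧ 0 ≤ K ∧
    ∀ ρ : ℝ, 0 < ρ → ρ ≤ 1 → ∀ (M T : ℝ) (f : ℝ → Vec d → Vec d → ℝ), IsBoltzmannSol (1 + a) b T f → Planar e T f → GB M (f 0) →
      ∀ l η : ℝ, 0 < l → l ≤ 1 → 0 ≤ η →
      (∀ t ∈ Ioo 0 T, ∀ x, loc e l (fun y => ∫ v, f t y v * jb v ^ qx a m (kpa s m)) x ≤ η) →
      ∀ V : ℝ, 1 ≤ V → ∀ r t : ℝ, 0 < r → r ≤ t → t < T →
      c * ∫ τ in r..t, (∫ x, YW a m V (f τ x) ((CmpS (δ / 2) ∩ NtM e ε₁ (kpa s m)) ∩ FarS d ρ) ∂(muD d)) ≤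
        K * (M ^ 2 * V ^ (-1 : ℝ) / l * (1 + (t - r))) +
          K * (η * ((∫ τ in r..t, (∫ x, YW a m V (f τ x) univ ∂(muD d))) +
            V ^ (-1 : ℝ) * (∫ τ in r..t, (∫ x, YW a m 1 (f τ x) univ ∂(muD d))) +
            (Hs (f r) - Hs (f t)))) := by
  set κ : ℝ := kpa s m with hκ
  obtain ⟨K, hK, hKf⟩ := fibY HL h1 E hτ₀ hτ₁ hErr e hε₁
  obtain ⟨c, hc, hcf⟩ := VTVR_low E hε₁ e hδ hδ1
  obtain ⟨B₁, hB₁, hB₁f⟩ := TVR_abs (d := d) E hε₁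
  obtain ⟨B₂, hB₂, hB₂f⟩ := VTVR_le (d := d) (ε := ε₁) E
  refine ⟨c, 8 * B₁ + 4 * B₂ + K, hc, by linarith, ?_⟩
  intro ρ hρ hρ1 M T f hf hpl h0 l η hl hl1 hη0 hη V hV r t hr hrt htT
  obtain ⟨hm0, hm1', ha1', -⟩ := E.facts
  have ha0 : 0 ≤ a := E.ha
  have ha1 : a ≤ 1 := ha1'.le
  have hm1 : m ≤ 1 := hm1'.le
  have hfc : IsClassicalSol T (fun t x => boltzQ (1 + a) b (f t x)) f := hf
  have hP : PGW (TVR e a m κ ε₁ ρ V : Vec d → Vec d → ℝ) := TVR_PGW E hε₁ hρ e hV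
  have hC := csol_pair hfc hpl hP hl
  have hIco : ∀ τ ∈ Ioo 0 T, τ ∈ Ico 0 T := fun τ hτ => ⟨hτ.1.le, hτ.2⟩
  have hV0 : 0 ≤ V ^ (-1 : ℝ) := Real.rpow_nonneg (by linarith) _
  have hj2 : ∀ τ ∈ Ioo 0 T, ∫ q, f τ q.2 q.1 * jb q.1 ^ 2 ∂(nu d) ≤ 2 * M := fun τ hτ =>
    jb2_bound hf (hIco τ hτ) (glob_bounds HL.H hf h0 (hIco τ hτ))
  have hab : ∀ τ ∈ Ioo 0 T,
      |∫ p, f τ p.2 p.1 * pot e l (TVR e a m κ ε₁ ρ V) (f τ) p.2 p.1 ∂(nu d)| ≤
        B₁ * V ^ (-1 : ℝ) * (2 * M) ^ 2 := fun τ hτ =>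
    pair_absV hP (fs_of hf hpl hτ) hl hl1 (mul_nonneg hB₁ hV0)
      (fun v w => hB₁f ρ hρ e V hV v w) (hj2 τ hτ)
  have hA1 : MeasurableSet ((CmpS (δ / 2) ∩ NtM e ε₁ κ) ∩ FarS d ρ : Set (Vec d × Vec d)) :=
    ((measurableSet_CmpS _).inter (measurableSet_NtM _ _ _)).inter (measurableSet_FarS ρ)
  obtain ⟨wA1, wA2, wA3⟩ := wt_om (a := m) (V := V) hm1 hV hA1
  obtain ⟨wU1, wU2, wU3⟩ := wt_om (d := d) (a := m) (V := V) hm1 hV MeasurableSet.univ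
  obtain ⟨wO1, wO2, wO3⟩ := wt_om (d := d) (a := m) (V := 1) hm1 le_rfl MeasurableSet.univ
  have hsub : Icc r t ⊆ Ioo 0 T := fun τ hτ => ⟨lt_of_lt_of_le hr hτ.1, lt_of_le_of_lt hτ.2 htT⟩
  have hsub' : Icc r t ⊆ Ico 0 T := fun τ hτ => hIco τ (hsub hτ)
  have iY : IntervalIntegrable (fun τ =>
      ∫ x, YW a m V (f τ x) ((CmpS (δ / 2) ∩ NtM e ε₁ κ) ∩ FarS d ρ) ∂(muD d)) volume r t := by
    refine ContinuousOn.intervalIntegrable_of_Icc hrt ?_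
    simp only [YW_eq_YG hA1]
    exact (YGt_cont ha0 ha1 hm1 hfc wA1 wA2 wA3).mono hsub'
  have iU : IntervalIntegrable (fun τ => ∫ x, YW a m V (f τ x) univ ∂(muD d)) volume r t := by
    refine ContinuousOn.intervalIntegrable_of_Icc hrt ?_
    simp only [YW_eq_YG (a := a) (m := m) (V := V) MeasurableSet.univ]
    exact (YGt_cont ha0 ha1 hm1 hfc wU1 wU2 wU3).mono hsub'
  have iO : IntervalIntegrable (fun τ => ∫ x, YW a m 1 (f τ x) univ ∂(muD d)) volume r t := by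
    refine ContinuousOn.intervalIntegrable_of_Icc hrt ?_
    simp only [YW_eq_YG (a := a) (m := m) (V := 1) MeasurableSet.univ]
    exact (YGt_cont ha0 ha1 hm1 hfc wO1 wO2 wO3).mono hsub'
  have iS : IntervalIntegrable (fun τ => ∫ p, (boltzQ (1 + a) b (f τ p.2) p.1 *
      pot e l (TVR e a m κ ε₁ ρ V) (f τ) p.2 p.1 + f τ p.2 p.1 * dpot e l (TVR e a m κ ε₁ ρ V) (f τ)
        (fun x => boltzQ (1 + a) b (f τ x)) p.2 p.1) ∂(nu d)) volume r t := by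
    apply ContinuousOn.intervalIntegrable
    rw [uIcc_of_le hrt]
    exact hC.contI.mono hsub
  have hftc := hC.ftc hr hrt htT
  have hr' : r ∈ Ioo 0 T := ⟨hr, lt_of_le_of_lt hrt htT⟩
  have ht' : t ∈ Ioo 0 T := ⟨lt_of_lt_of_le hr hrt, htT⟩
  have b1 := abs_le.1 (hab r hr')
  have b2 := abs_le.1 (hab t ht')
  set IU : ℝ := ∫ τ in r..t, (∫ x, YW a m V (f τ x) univ ∂(muD d)) with hIU
  set IO : ℝ := ∫ τ in r..t, (∫ x, YW a m 1 (f τ x) univ ∂(muD d)) with hIO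
  set IY : ℝ := ∫ τ in r..t, (∫ x, YW a m V (f τ x) ((CmpS (δ / 2) ∩ NtM e ε₁ κ) ∩ FarS d ρ) ∂(muD d)) with hIY
  -- the estimate with the regularization
  have key : ∀ η' : ℝ, 0 < η' → c * IY ≤ 2 * (B₁ * V ^ (-1 : ℝ) * (2 * M) ^ 2) +
      (t - r) * (B₂ * V ^ (-1 : ℝ) * (2 * M) ^ 2 / l) +
      K * η * (IU + (Hs (f r) - Hs (f t) + η') + V ^ (-1 : ℝ) * IO + η' * (t - r)) := by
    intro η' hη'
    obtain ⟨Cl, hCl⟩ := sol_unice hfc hr htT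
    obtain ⟨δa, hδa, hFf⟩ := hKf ρ hρ hρ1 Cl η' hη'
    obtain ⟨δb, hδb, hD⟩ := drop_lim HL.H hf hr hrt htT hη'
    obtain ⟨δ', hδ'0, hδ'a, hδ'b, hδ'1⟩ : ∃ δ' : ℝ, 0 < δ' ∧ δ' ≤ δa ∧ δ' ≤ δb ∧ δ' ≤ 1 :=
      ⟨min (min δa δb) 1, lt_min (lt_min hδa hδb) one_pos,
        (min_le_left _ _).trans (min_le_left _ _), (min_le_left _ _).trans (min_le_right _ _),
        min_le_right _ _⟩
    have iD : IntervalIntegrable (fun τ => ∫ x, Dn (1 + a) b δ' (f τ x) ∂(muD d)) volume r t :=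
      ContinuousOn.intervalIntegrable_of_Icc hrt ((Dn_cont HL.H hf hδ'0 hδ'1).mono hsub)
    have hsl : ∀ τ ∈ Icc r t,
        c * ∫ x, YW a m V (f τ x) ((CmpS (δ / 2) ∩ NtM e ε₁ κ) ∩ FarS d ρ) ∂(muD d) ≤
        (∫ p, (boltzQ (1 + a) b (f τ p.2) p.1 * pot e l (TVR e a m κ ε₁ ρ V) (f τ) p.2 p.1 +
          f τ p.2 p.1 * dpot e l (TVR e a m κ ε₁ ρ V) (f τ) (fun x => boltzQ (1 + a) b (f τ x)) p.2 p.1)
            ∂(nu d)) +
        B₂ * V ^ (-1 : ℝ) * (2 * M) ^ 2 / l +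
        K * η * ((∫ x, YW a m V (f τ x) univ ∂(muD d)) + (∫ x, Dn (1 + a) b δ' (f τ x) ∂(muD d)) +
          V ^ (-1 : ℝ) * (∫ x, YW a m 1 (f τ x) univ ∂(muD d)) + η') := by
      intro τ hτ
      have hτI := hsub hτ
      have hn : ∀ x, Nice (f τ x) := fun x => hfc.nice hτI x
      have hn0 : ∀ x v, 0 ≤ f τ x v := hfc.nonneg τ (hIco τ hτI)
      have p1 : PlF e (fun x => YW a m V (f τ x) univ) := by
        simp only [YW_eq_YG (a := a) (m := m) (V := V) MeasurableSet.univ]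
        exact YG_pl ha0 ha1 hm1 hfc hpl wU1 wU2 wU3 (hIco τ hτI)
      have p2 : PlF e (fun x => YW a m 1 (f τ x) univ) := by
        simp only [YW_eq_YG (a := a) (m := m) (V := 1) MeasurableSet.univ]
        exact YG_pl ha0 ha1 hm1 hfc hpl wO1 wO2 wO3 (hIco τ hτI)
      have p3 : PlF e (fun x => Dn (1 + a) b δ' (f τ x)) := timC_Dn hf hpl hδ'0 hτI
      have p4 : PlF e (fun x => YW a m V (f τ x) univ + Dn (1 + a) b δ' (f τ x) +
          V ^ (-1 : ℝ) * YW a m 1 (f τ x) univ + η') :=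
        plF_add (plF_add (plF_add p1 p3) (plF_mul _ p2)) (plF_const η')
      have hYi : Integrable (fun x => YW a m V (f τ x) ((CmpS (δ / 2) ∩ NtM e ε₁ κ) ∩ FarS d ρ)) (muD d) := by
        simp only [YW_eq_YG hA1]
        exact YG_int ha0 ha1 hm1 hfc wA1 wA2 wA3 (hIco τ hτI)
      have h5 := pair_sliceV (q := qx a m κ) (η := η) hP (TVR_antisymm e V) (fs_of hf hpl hτI) hl hl1
        p4 (fun x => (hFf δ' ⟨hδ'0, hδ'a⟩ (f τ x) (hCl τ hτ x) V hV).1) hK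
        (fun x v => (hFf δ' ⟨hδ'0, hδ'a⟩ (f τ x) (hCl τ hτ x) V hV).2 v)
        (hη τ hτI) (mul_nonneg hB₂ hV0)
        (fun v w => VTVR_nonneg hρ e hV v w) (fun v w => hB₂f ρ hρ e V hV v w)
        (hj2 τ hτI) hYi
        (fun x => timC_low E hε₁ hρ e hV hA1 (hcf ρ hρ V hV) (hn x).rd (hn x).cont (hn0 x))
      rw [timC_x (pl_int p1) (pl_int p3) (pl_int p2)] at h5
      exact h5
    have iZ : IntervalIntegrable (fun τ => (∫ x, YW a m V (f τ x) univ ∂(muD d)) +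
        (∫ x, Dn (1 + a) b δ' (f τ x) ∂(muD d)) +
          V ^ (-1 : ℝ) * (∫ x, YW a m 1 (f τ x) univ ∂(muD d)) + η') volume r t :=
      ((iU.add iD).add (iO.const_mul _)).add intervalIntegrable_const
    have hint : c * IY ≤
        (∫ τ in r..t, ((∫ p, (boltzQ (1 + a) b (f τ p.2) p.1 *
          pot e l (TVR e a m κ ε₁ ρ V) (f τ) p.2 p.1 +
          f τ p.2 p.1 * dpot e l (TVR e a m κ ε₁ ρ V) (f τ) (fun x => boltzQ (1 + a) b (f τ x)) p.2 p.1)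
            ∂(nu d)) + B₂ * V ^ (-1 : ℝ) * (2 * M) ^ 2 / l +
              K * η * ((∫ x, YW a m V (f τ x) univ ∂(muD d)) +
                (∫ x, Dn (1 + a) b δ' (f τ x) ∂(muD d)) +
                V ^ (-1 : ℝ) * (∫ x, YW a m 1 (f τ x) univ ∂(muD d)) + η'))) := by
      rw [hIY, ← intervalIntegral.integral_const_mul]
      exact intervalIntegral.integral_mono_on hrt (iY.const_mul c)
        ((iS.add intervalIntegrable_const).add (iZ.const_mul (K * η))) hsl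
    rw [intervalIntegral.integral_add (iS.add intervalIntegrable_const) (iZ.const_mul (K * η)),
      intervalIntegral.integral_add iS intervalIntegrable_const, intervalIntegral.integral_const,
      intervalIntegral.integral_const_mul,
      intervalIntegral.integral_add ((iU.add iD).add (iO.const_mul _)) intervalIntegrable_const,
      intervalIntegral.integral_add (iU.add iD) (iO.const_mul _),
      intervalIntegral.integral_add iU iD, intervalIntegral.integral_const_mul,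
      intervalIntegral.integral_const, smul_eq_mul, smul_eq_mul] at hint
    rw [← hftc] at hint
    have h6 := (abs_le.1 (hD δ' ⟨hδ'0, hδ'b⟩)).2
    have h7 : K * η * (IU + (∫ τ in r..t, (∫ x, Dn (1 + a) b δ' (f τ x) ∂(muD d))) +
        V ^ (-1 : ℝ) * IO + (t - r) * η') ≤
        K * η * (IU + (Hs (f r) - Hs (f t) + η') + V ^ (-1 : ℝ) * IO + η' * (t - r)) := by
      refine mul_le_mul_of_nonneg_left ?_ (mul_nonneg hK hη0)
      linarith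
    linarith [b1.1, b1.2, b2.1, b2.2]
  have hkey : c * IY ≤ 2 * (B₁ * V ^ (-1 : ℝ) * (2 * M) ^ 2) +
      (t - r) * (B₂ * V ^ (-1 : ℝ) * (2 * M) ^ 2 / l) +
      K * η * (IU + (Hs (f r) - Hs (f t)) + V ^ (-1 : ℝ) * IO) := by
    refine le_of_forall_pos_le_add fun ζ hζ => ?_
    have hts : 0 ≤ t - r := by linarith
    have hden : 0 < K * η * (1 + (t - r)) + 1 := by positivity
    have h8 := key (ζ / (K * η * (1 + (t - r)) + 1)) (div_pos hζ hden)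
    have h9 : K * η * (1 + (t - r)) * (ζ / (K * η * (1 + (t - r)) + 1)) ≤ ζ := by
      rw [mul_div_assoc', div_le_iff₀ hden]
      linarith only [hζ]
    linarith only [h8, h9]
  -- collect
  have hτ0 : 0 ≤ t - r := by linarith
  have hX : 0 ≤ M ^ 2 * V ^ (-1 : ℝ) / l * (1 + (t - r)) := by positivity
  have e1 : 2 * (B₁ * V ^ (-1 : ℝ) * (2 * M) ^ 2) ≤ 8 * B₁ * (M ^ 2 * V ^ (-1 : ℝ) / l * (1 + (t - r))) := by
    have h10 : M ^ 2 * V ^ (-1 : ℝ) ≤ M ^ 2 * V ^ (-1 : ℝ) / l * (1 + (t - r)) := by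
      have h11 : M ^ 2 * V ^ (-1 : ℝ) ≤ M ^ 2 * V ^ (-1 : ℝ) / l := by
        rw [le_div_iff₀ hl]
        have : 0 ≤ M ^ 2 * V ^ (-1 : ℝ) := by positivity
        exact mul_le_of_le_one_right this hl1
      have h12 : 0 ≤ M ^ 2 * V ^ (-1 : ℝ) / l := by positivity
      exact h11.trans (le_mul_of_one_le_right h12 (by linarith))
    have := mul_le_mul_of_nonneg_left h10 (by linarith : 0 ≤ 8 * B₁)
    calc 2 * (B₁ * V ^ (-1 : ℝ) * (2 * M) ^ 2) = 8 * B₁ * (M ^ 2 * V ^ (-1 : ℝ)) := by ring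
      _ ≤ _ := this
  have e2 : (t - r) * (B₂ * V ^ (-1 : ℝ) * (2 * M) ^ 2 / l) ≤
      4 * B₂ * (M ^ 2 * V ^ (-1 : ℝ) / l * (1 + (t - r))) := by
    have h10 : (t - r) * (M ^ 2 * V ^ (-1 : ℝ) / l) ≤ M ^ 2 * V ^ (-1 : ℝ) / l * (1 + (t - r)) := by
      have h12 : 0 ≤ M ^ 2 * V ^ (-1 : ℝ) / l := by positivity
      linarith only [h12]
    have := mul_le_mul_of_nonneg_left h10 (by linarith : 0 ≤ 4 * B₂)
    calc (t - r) * (B₂ * V ^ (-1 : ℝ) * (2 * M) ^ 2 / l)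
        = 4 * B₂ * ((t - r) * (M ^ 2 * V ^ (-1 : ℝ) / l)) := by ring
      _ ≤ _ := this
  have hH : 0 ≤ Hs (f r) - Hs (f t) := by
    have := Hs_anti HL.H hf hr hrt htT
    linarith
  have hYn : ∀ V' : ℝ, 1 ≤ V' → 0 ≤ ∫ τ in r..t, (∫ x, YW a m V' (f τ x) univ ∂(muD d)) := fun V' hV' =>
    intervalIntegral.integral_nonneg hrt fun τ hτ => integral_nonneg fun x =>
      YW_nonneg hV' (hfc.nonneg τ (hsub' hτ) x) _
  have hU0 : 0 ≤ IU := hYn V hV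
  have hO0 : 0 ≤ IO := hYn 1 le_rfl
  have hZ : 0 ≤ η * (IU + V ^ (-1 : ℝ) * IO + (Hs (f r) - Hs (f t))) := by positivity
  have e3 : K * η * (IU + (Hs (f r) - Hs (f t)) + V ^ (-1 : ℝ) * IO) =
      K * (η * (IU + V ^ (-1 : ℝ) * IO + (Hs (f r) - Hs (f t)))) := by ring
  rw [e3] at hkey
  have e4 : 0 ≤ K * (M ^ 2 * V ^ (-1 : ℝ) / l * (1 + (t - r))) := mul_nonneg hK hX
  have e5 : 0 ≤ (8 * B₁ + 4 * B₂) * (η * (IU + V ^ (-1 : ℝ) * IO + (Hs (f r) - Hs (f t)))) :=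
    mul_nonneg (by linarith) hZ
  have e6 : (8 * B₁ + 4 * B₂ + K) * (M ^ 2 * V ^ (-1 : ℝ) / l * (1 + (t - r))) +
      (8 * B₁ + 4 * B₂ + K) * (η * (IU + V ^ (-1 : ℝ) * IO + (Hs (f r) - Hs (f t)))) =
      8 * B₁ * (M ^ 2 * V ^ (-1 : ℝ) / l * (1 + (t - r))) + 4 * B₂ * (M ^ 2 * V ^ (-1 : ℝ) / l * (1 + (t - r))) +
      K * (M ^ 2 * V ^ (-1 : ℝ) / l * (1 + (t - r))) +
      ((8 * B₁ + 4 * B₂) * (η * (IU + V ^ (-1 : ℝ) * IO + (Hs (f r) - Hs (f t)))) +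
      K * (η * (IU + V ^ (-1 : ℝ) * IO + (Hs (f r) - Hs (f t))))) := by ring
  rw [e6]
  linarith

theorem pair_timeY (HL : HypL d (1 + a) s b C Ca cb) (h1 : 2 * s < m) (E : EY a m (kpa s m))
    {τ₀ : ℝ} (hτ₀ : a ≤ τ₀) (hτ₁ : τ₀ ≤ 1) (hErr : ErrC d a m τ₀ b) (e : Fin d)
    {δ ε₁ : ℝ} (hδ : 0 < δ) (hδ1 : δ < 1) (hε₁ : 0 < ε₁) : ∃ c K : ℝ, 0 < c ∧ 0 ≤ K ∧
    ∀ (M T : ℝ) (f : ℝ → Vec d → Vec d → ℝ), IsBoltzmannSol (1 + a) b T f → Planar e T f → GB M (f 0) →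
      ∀ l η : ℝ, 0 < l → l ≤ 1 → 0 ≤ η →
      (∀ t ∈ Ioo 0 T, ∀ x, loc e l (fun y => ∫ v, f t y v * jb v ^ qx a m (kpa s m)) x ≤ η) →
      ∀ V : ℝ, 1 ≤ V → ∀ r t : ℝ, 0 < r → r ≤ t → t < T →
      c * ∫ τ in r..t, (∫ x, YW a m V (f τ x) (CmpS (δ / 2) ∩ NtM e ε₁ (kpa s m)) ∂(muD d)) ≤
        K * (M ^ 2 * V ^ (-1 : ℝ) / l * (1 + (t - r))) +
          K * (η * ((∫ τ in r..t, (∫ x, YW a m V (f τ x) univ ∂(muD d))) +
            V ^ (-1 : ℝ) * (∫ τ in r..t, (∫ x, YW a m 1 (f τ x) univ ∂(muD d))) +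
            (Hs (f r) - Hs (f t)))) := by
  obtain ⟨c, K, hc, hK, h⟩ := pair_timeR HL h1 E hτ₀ hτ₁ hErr e hδ hδ1 hε₁
  refine ⟨c, K, hc, hK, fun M T f hf hpl h0 l η hl hl1 hη0 hη V hV r t hr hrt htT => ?_⟩
  obtain ⟨hm0, hm1', ha1', -⟩ := E.facts
  have ha0 : 0 ≤ a := E.ha
  have ha1 : a ≤ 1 := ha1'.le
  have hm1 : m ≤ 1 := hm1'.le
  have hfc : IsClassicalSol T (fun t x => boltzQ (1 + a) b (f t x)) f := hf
  obtain ⟨Cl, hCl⟩ := sol_unice hfc hr htT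
  obtain ⟨K', hK', hN⟩ := YW_near (d := d) (a := a) (m := m) ha0 ha1 hm1 Cl
  have hsub' : Icc r t ⊆ Ico 0 T := fun τ hτ => ⟨hr.le.trans hτ.1, hτ.2.trans_lt htT⟩
  have hA : MeasurableSet (CmpS (δ / 2) ∩ NtM e ε₁ (kpa s m) : Set (Vec d × Vec d)) :=
    (measurableSet_CmpS _).inter (measurableSet_NtM _ _ _)
  have hAr : ∀ ρ : ℝ, MeasurableSet ((CmpS (δ / 2) ∩ NtM e ε₁ (kpa s m)) ∩ FarS d ρ : Set (Vec d × Vec d)) :=
    fun ρ => hA.inter (measurableSet_FarS ρ)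
  have hint : ∀ {B : Set (Vec d × Vec d)}, MeasurableSet B →
      IntervalIntegrable (fun τ => ∫ x, YW a m V (f τ x) B ∂(muD d)) volume r t := by
    intro B hB
    obtain ⟨w1, w2, w3⟩ := wt_om (a := m) (V := V) hm1 hV hB
    refine ContinuousOn.intervalIntegrable_of_Icc hrt ?_
    simp only [YW_eq_YG hB]
    exact (YGt_cont ha0 ha1 hm1 hfc w1 w2 w3).mono hsub'
  have hxi : ∀ {B : Set (Vec d × Vec d)}, MeasurableSet B → ∀ τ ∈ Icc r t,
      Integrable (fun x => YW a m V (f τ x) B) (muD d) := by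
    intro B hB τ hτ
    obtain ⟨w1, w2, w3⟩ := wt_om (a := m) (V := V) hm1 hV hB
    simp only [YW_eq_YG hB]
    exact YG_int ha0 ha1 hm1 hfc w1 w2 w3 (hsub' hτ)
  have key : ∀ ρ : ℝ, 0 < ρ → ρ ≤ 1 →
      ∫ τ in r..t, (∫ x, YW a m V (f τ x) (CmpS (δ / 2) ∩ NtM e ε₁ (kpa s m)) ∂(muD d)) ≤
      (∫ τ in r..t, (∫ x, YW a m V (f τ x) ((CmpS (δ / 2) ∩ NtM e ε₁ (kpa s m)) ∩ FarS d ρ) ∂(muD d))) +
        (t - r) * (K' * ρ) := by
    intro ρ hρ hρ1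
    have h2 : ∀ τ ∈ Icc r t, ∫ x, YW a m V (f τ x) (CmpS (δ / 2) ∩ NtM e ε₁ (kpa s m)) ∂(muD d) ≤
        (∫ x, YW a m V (f τ x) ((CmpS (δ / 2) ∩ NtM e ε₁ (kpa s m)) ∩ FarS d ρ) ∂(muD d)) + K' * ρ := by
      intro τ hτ
      have i1 := hxi hA τ hτ
      have i2 := hxi (hAr ρ) τ hτ
      refine (integral_mono i1 (i2.add (integrable_const (K' * ρ)))
        fun x => hN ρ hρ hρ1 V hV (f τ x) (hCl τ hτ x) _ hA).trans (le_of_eq ?_)
      rw [integral_add' i2 (integrable_const _), integral_const, muD_real, one_smul]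
    have h3 := intervalIntegral.integral_mono_on hrt (hint hA)
      ((hint (hAr ρ)).add (intervalIntegrable_const (c := K' * ρ))) h2
    rw [intervalIntegral.integral_add (hint (hAr ρ)) intervalIntegrable_const,
      intervalIntegral.integral_const, smul_eq_mul] at h3
    exact h3
  refine le_of_forall_pos_le_add fun ζ hζ => ?_
  have hts : 0 ≤ t - r := by linarith
  have hden : 0 < c * ((t - r) * K') + 1 := by positivity
  obtain ⟨ρ, hρ, hρ1, hρ2⟩ : ∃ ρ : ℝ, 0 < ρ ∧ ρ ≤ 1 ∧ c * ((t - r) * (K' * ρ)) ≤ ζ := by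
    refine ⟨min 1 (ζ / (c * ((t - r) * K') + 1)), lt_min one_pos (div_pos hζ hden), min_le_left _ _, ?_⟩
    have h4 : min 1 (ζ / (c * ((t - r) * K') + 1)) ≤ ζ / (c * ((t - r) * K') + 1) := min_le_right _ _
    have h5 : 0 ≤ min 1 (ζ / (c * ((t - r) * K') + 1)) := le_min zero_le_one (div_pos hζ hden).le
    rw [le_div_iff₀ hden] at h4
    linarith only [h4, h5]
  have h6 := h ρ hρ hρ1 M T f hf hpl h0 l η hl hl1 hη0 hη V hV r t hr hrt htT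
  have h7 := mul_le_mul_of_nonneg_left (key ρ hρ hρ1) hc.le
  linarith

end Pool.Agent.H71.PY
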