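import Pool.Agent.H71.PX.TimAM
import Pool.Agent.H71.PY.TimBY
import Pool.Agent.H71.PY.TimCY
import Pool.Agent.H48.PL.Equi
import Pool.Agent.H25.PT.TimBV

/-!
# Module ClosY (PX/ClosM, `0 ≤ a`): the closure, the tail property `TailT d a m m b` (blocks X and T of P-WIDE)

`κ = kpa s m`, `q = qx a m κ ∈ [0,2)`. `δ, c₁, C₁` from `pov_timeM`; `ε₁, C₂` from `ent_timeM`; `c, K` from `pair_timeM`. Put (time and space integrals over `[r,t]`) `X = YW V univ`, `X₁ = YW 1 univ`, `Xh = YW V (CmpS δ)ᶜ`, `Xc = YW V (CmpS δ)`, `Xt = YW V (thin)`,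
`Xn = YW V (CmpS (δ/2) ∩ NtM)`, `h = Hs (f r) - Hs (f t) ≥ 0` (`Hs_anti`, H25/PT/TimBV), `τ = t - r`:
`X ≤ Xh + Xt + Xn` (`YW_univ_le`), `Xc ≤ Xt + Xn` (`YW_cmp_le`), `c₁ Xh ≤ 2 M V^(-1) + C₁ Xc`, `Xt ≤ C₂ Xn + C₂ h`, `c Xn ≤ K M² V^(-1) (1+τ)/l + K η (X + V^(-1) X₁ + h)`.
So `X ≤ A V^(-1) (1+τ) + B h + D η (X + V^(-1) X₁ + h)` with `B, D` depending on the operator only and `A` on `M`, `l`. Take `η = 1/(4D+1)`, `l = l₀` from `equi` (`fs_of`, `glob_bounds`; it depends on `M` and `η`).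
`V = 1`: `X₁ ≤ A (1+τ) + B h + (1/4)(2X₁ + h)`, so `X₁ ≤ 2A (1+τ) + (2B+1) h`. General `V ≥ 1`: `X ≤ A V^(-1) (1+τ) + B h + (1/4)(X + V^(-1) X₁ + h)` gives the claim (`V^(-1) h ≤ h`).
(As in PL/Clos and PT/TailX: `ix_ii`, `split_sol`, `absorb` there.) `tail_T`: `r = 1 > m`.
-/

set_option autoImplicit false

open MeasureTheory Set Filter Topology Pool.Agent.H25.Kin Pool.Agent.H82.BK Pool.Agent.H82.CM
open Pool.Agent.H48.PL Pool.Agent.H48.PI Pool.Agent.H25.PT Pool.Agent.H48.PW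
open Pool.Agent.H71.PX

namespace Pool.Agent.H71.PY

variable {d : ℕ} {s a m C Ca cb : ℝ} {b : ℝ → ℝ}

private noncomputable def IX (a m V : ℝ) (f : ℝ → Vec d → Vec d → ℝ) (A : Set (Vec d × Vec d))
    (t : ℝ) : ℝ := ∫ x, YW a m V (f t x) A ∂(muD d)

private lemma xs_int (ha : 0 ≤ a) (ha1 : a ≤ 1) (hm1 : m ≤ 1) {V : ℝ} (hV : 1 ≤ V) {T γ : ℝ}
    {f : ℝ → Vec d → Vec d → ℝ} (hf : IsBoltzmannSol γ b T f) {t : ℝ} (ht : t ∈ Ico 0 T)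
    {A : Set (Vec d × Vec d)} (hA : MeasurableSet A) :
    Integrable (fun x => YW a m V (f t x) A) (muD d) := by
  obtain ⟨w1, w2, w3⟩ := wt_om (a := m) (V := V) hm1 hV hA
  simp only [YW_eq_YG hA]
  exact YG_int ha ha1 hm1 hf w1 w2 w3 ht

private lemma ix_ii (ha : 0 ≤ a) (ha1 : a ≤ 1) (hm1 : m ≤ 1) {V : ℝ} (hV : 1 ≤ V) {T γ : ℝ}
    {f : ℝ → Vec d → Vec d → ℝ} (hf : IsBoltzmannSol γ b T f) {r t : ℝ} (hr : 0 ≤ r) (hrt : r ≤ t)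
    (htT : t < T) {A : Set (Vec d × Vec d)} (hA : MeasurableSet A) :
    IntervalIntegrable (IX a m V f A) volume r t := by
  obtain ⟨w1, w2, w3⟩ := wt_om (a := m) (V := V) hm1 hV hA
  refine ContinuousOn.intervalIntegrable_of_Icc hrt ?_
  have h1 : IX a m V f A = fun t => ∫ x, YG a m (A.indicator fun p => om m V (RR p.1 p.2)) (f t x)
      ∂(muD d) := by
    funext t
    unfold IX
    simp only [YW_eq_YG hA]
  rw [h1]
  exact (YGt_cont ha ha1 hm1 hf w1 w2 w3).mono fun x hx => ⟨hr.trans hx.1, hx.2.trans_lt htT⟩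

private lemma split_sol (ha : 0 ≤ a) (ha1 : a ≤ 1) (hm1 : m ≤ 1) {V : ℝ} (hV : 1 ≤ V) {T γ : ℝ}
    {f : ℝ → Vec d → Vec d → ℝ} (hf : IsBoltzmannSol γ b T f) {r t : ℝ} (hr : 0 < r) (hrt : r ≤ t)
    (htT : t < T) {δ : ℝ} (hδ : 0 ≤ δ) (e : Fin d) (ε κ : ℝ) :
    (∫ τ in r..t, IX a m V f univ τ) ≤ (∫ τ in r..t, IX a m V f (CmpS δ)ᶜ τ) +
      ((∫ τ in r..t, IX a m V f (CmpS δ ∩ (NtM e ε κ)ᶜ) τ) +
        ∫ τ in r..t, IX a m V f (CmpS (δ / 2) ∩ NtM e ε κ) τ) ∧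
    (∫ τ in r..t, IX a m V f (CmpS δ) τ) ≤
      (∫ τ in r..t, IX a m V f (CmpS δ ∩ (NtM e ε κ)ᶜ) τ) +
        ∫ τ in r..t, IX a m V f (CmpS (δ / 2) ∩ NtM e ε κ) τ := by
  have m1 : MeasurableSet ((CmpS δ)ᶜ : Set (Vec d × Vec d)) := (measurableSet_CmpS δ).compl
  have m2 : MeasurableSet (CmpS δ ∩ (NtM e ε κ)ᶜ : Set (Vec d × Vec d)) :=
    (measurableSet_CmpS δ).inter (measurableSet_NtM e ε κ).compl
  have m3 : MeasurableSet (CmpS (δ / 2) ∩ NtM e ε κ : Set (Vec d × Vec d)) :=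
    (measurableSet_CmpS (δ / 2)).inter (measurableSet_NtM e ε κ)
  have m0 : MeasurableSet (CmpS δ : Set (Vec d × Vec d)) := measurableSet_CmpS δ
  have hii := fun (A : Set (Vec d × Vec d)) (hA : MeasurableSet A) =>
    ix_ii (a := a) (m := m) ha ha1 hm1 hV hf hr.le hrt htT hA
  have hmem : ∀ τ ∈ Icc r t, τ ∈ Ioo 0 T := fun τ hτ => ⟨hr.trans_le hτ.1, hτ.2.trans_lt htT⟩
  constructor
  · rw [← intervalIntegral.integral_add (hii _ m2) (hii _ m3),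
      ← intervalIntegral.integral_add (hii _ m1) ((hii _ m2).add (hii _ m3))]
    refine intervalIntegral.integral_mono_on hrt (hii _ MeasurableSet.univ)
      ((hii _ m1).add ((hii _ m2).add (hii _ m3))) fun τ hτ => ?_
    have hτ1 := hmem τ hτ
    have hτ0 : τ ∈ Ico 0 T := ⟨hτ1.1.le, hτ1.2⟩
    have hi := fun (A : Set (Vec d × Vec d)) (hA : MeasurableSet A) =>
      xs_int (a := a) (m := m) ha ha1 hm1 hV hf hτ0 hA
    simp only [IX]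
    have h2 : Integrable (fun x => YW a m V (f τ x) (CmpS δ ∩ (NtM e ε κ)ᶜ) +
      YW a m V (f τ x) (CmpS (δ / 2) ∩ NtM e ε κ)) (muD d) := (hi _ m2).add (hi _ m3)
    rw [← integral_add (hi _ m2) (hi _ m3), ← integral_add (hi _ m1) h2]
    refine integral_mono (hi _ MeasurableSet.univ) ((hi _ m1).add h2) fun x => ?_
    exact YW_univ_le ha ha1 hm1 hV (hf.nice hτ1 x).rd (hf.nice hτ1 x).cont
      (fun v => hf.nonneg τ hτ0 x v) hδ e ε κ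
  · rw [← intervalIntegral.integral_add (hii _ m2) (hii _ m3)]
    refine intervalIntegral.integral_mono_on hrt (hii _ m0)
      ((hii _ m2).add (hii _ m3)) fun τ hτ => ?_
    have hτ1 := hmem τ hτ
    have hτ0 : τ ∈ Ico 0 T := ⟨hτ1.1.le, hτ1.2⟩
    have hi := fun (A : Set (Vec d × Vec d)) (hA : MeasurableSet A) =>
      xs_int (a := a) (m := m) ha ha1 hm1 hV hf hτ0 hA
    simp only [IX]
    rw [← integral_add (hi _ m2) (hi _ m3)]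
    refine integral_mono (hi _ m0) ((hi _ m2).add (hi _ m3)) fun x => ?_
    exact YW_cmp_le ha ha1 hm1 hV (hf.nice hτ1 x).rd (hf.nice hτ1 x).cont
      (fun v => hf.nonneg τ hτ0 x v) hδ e ε κ

/-- the algebra of the closure; `y = V^(-1)`, `τ = t - r`, `Z = X + y X₁ + h` -/
private lemma clos_alg {X Xh Xc Xt Xn M c₁ C₁ C₂ c K N y τ h Z η : ℝ} (hc₁ : 0 < c₁) (hC₁ : 0 ≤ C₁)
    (hC₂ : 0 ≤ C₂) (hc : 0 < c) (hM : 0 ≤ M) (hy : 0 ≤ y) (hτ : 0 ≤ τ) (hh : 0 ≤ h)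
    (s1 : X ≤ Xh + (Xt + Xn)) (s2 : Xc ≤ Xt + Xn) (h3 : c₁ * Xh ≤ 2 * M * y + C₁ * Xc)
    (h4 : Xt ≤ C₂ * Xn + C₂ * h) (h5 : c * Xn ≤ K * (N * y * (1 + τ)) + K * (η * Z))  :
    X ≤ (2 * M / c₁ + (C₁ / c₁ + 1) * (C₂ + 1) / c * (K * N)) * (y * (1 + τ)) +
      (C₁ / c₁ + 1) * C₂ * h + (C₁ / c₁ + 1) * (C₂ + 1) / c * K * (η * Z) := by
  set B : ℝ := C₁ / c₁ + 1 with hB
  have hB0 : 0 < B := by positivity
  have g1 : Xh ≤ 2 * M / c₁ * y + C₁ / c₁ * (Xt + Xn) := by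
    have h6 : Xh ≤ (2 * M * y + C₁ * Xc) / c₁ := by
      rw [le_div_iff₀ hc₁]; linarith
    refine h6.trans ?_
    rw [add_div]
    have h7 : C₁ * Xc / c₁ ≤ C₁ / c₁ * (Xt + Xn) := by
      rw [div_mul_eq_mul_div]
      gcongr
    have h8 : 2 * M * y / c₁ = 2 * M / c₁ * y := by ring
    linarith
  have g2 : X ≤ 2 * M / c₁ * y + B * (Xt + Xn) := by
    have : B * (Xt + Xn) = C₁ / c₁ * (Xt + Xn) + (Xt + Xn) := by rw [hB]; ring
    linarith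
  have g3 : B * (Xt + Xn) ≤ B * (C₂ * h + (C₂ + 1) * Xn) := by
    refine mul_le_mul_of_nonneg_left ?_ hB0.le
    nlinarith
  have g4 : Xn ≤ (K * (N * y * (1 + τ)) + K * (η * Z)) / c := by
    rw [le_div_iff₀ hc]; linarith
  have g5 : B * ((C₂ + 1) * Xn) ≤ B * ((C₂ + 1) * ((K * (N * y * (1 + τ)) + K * (η * Z)) / c)) := by
    gcongr
  have g6 : 2 * M / c₁ * y ≤ 2 * M / c₁ * (y * (1 + τ)) := by
    refine mul_le_mul_of_nonneg_left ?_ (by positivity)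
    nlinarith
  have e1 : B * ((C₂ + 1) * ((K * (N * y * (1 + τ)) + K * (η * Z)) / c)) =
      B * (C₂ + 1) / c * (K * N) * (y * (1 + τ)) + B * (C₂ + 1) / c * K * (η * Z) := by
    field_simp
  have e2 : B * (C₂ * h + (C₂ + 1) * Xn) = B * C₂ * h + B * ((C₂ + 1) * Xn) := by ring
  nlinarith

theorem tail_y (HL : HypL d (1 + a) s b C Ca cb) (h1 : 2 * s < m) (E : EY a m (kpa s m))
    {τ₀ : ℝ} (hτ₀ : a ≤ τ₀) (hτ₁ : τ₀ ≤ 1) (hErr : ErrC d a m τ₀ b) (e : Fin d) (M : ℝ) :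
    ∃ K : ℝ, 0 ≤ K ∧ ∀ (T : ℝ) (f : ℝ → Vec d → Vec d → ℝ), IsBoltzmannSol (1 + a) b T f →
      Planar e T f → GB M (f 0) → ∀ V : ℝ, 1 ≤ V → ∀ r t : ℝ, 0 < r → r ≤ t → t < T →
      ∫ τ in r..t, (∫ x, YW a m V (f τ x) univ ∂(muD d)) ≤
        K * (V ^ (-1 : ℝ) * (1 + (t - r)) + (Hs (f r) - Hs (f t))) := by
  obtain ⟨hm0, hm1', ha1', -, -, -, -, hq0, hq2, -⟩ := E.facts
  have ha0 : 0 ≤ a := E.ha
  have ha1 : a ≤ 1 := ha1'.le
  have hm1 : m ≤ 1 := hm1'.le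
  obtain ⟨δ, c₁, C₁, hδ, hδ1, hc₁, hC₁, hA⟩ := pov_timeM HL ha0 ha1 h1 hm1
  obtain ⟨ε₁, C₂, hε₁, hC₂, hB⟩ := ent_timeM HL ha0 ha1 hm0 hm1 e hδ hδ1
  obtain ⟨c, K, hc, hK, hD⟩ := pair_timeY HL h1 E hτ₀ hτ₁ hErr e hδ hδ1 hε₁
  set D : ℝ := (C₁ / c₁ + 1) * (C₂ + 1) / c * K with hDdef
  have hD0 : 0 ≤ D := by positivity
  set η : ℝ := 1 / (4 * D + 1) with hη
  have hη0 : 0 < η := by positivity
  have hDη : D * η ≤ 1 / 4 := by
    rw [hη, mul_one_div, div_le_iff₀ (by positivity)]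
    linarith
  obtain ⟨l, hl, hl1, hE⟩ := equi e M hq0 hq2 hη0
  set A : ℝ := 2 * |M| / c₁ + (C₁ / c₁ + 1) * (C₂ + 1) / c * (K * (M ^ 2 / l)) with hAdef
  have hA0 : 0 ≤ A := by positivity
  set B : ℝ := (C₁ / c₁ + 1) * C₂ with hBdef
  have hB0 : 0 ≤ B := by positivity
  refine ⟨4 * A + 4 * B + 4, by positivity, ?_⟩
  intro T f hf hpl h0 V hV r t hr hrt htT
  have hM0 : 0 ≤ M := by
    have h0T : (0 : ℝ) ∈ Ico 0 T := ⟨le_rfl, by linarith⟩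
    exact (integral_nonneg fun q => hf.nonneg 0 h0T q.2 q.1).trans h0.mass
  have hτ0 : 0 ≤ t - r := by linarith
  have hH : 0 ≤ Hs (f r) - Hs (f t) := by
    have := Hs_anti HL.H hf hr hrt htT
    linarith
  set h : ℝ := Hs (f r) - Hs (f t) with hh
  have hloc : ∀ t ∈ Ioo 0 T, ∀ x, loc e l (fun y => ∫ v, f t y v * jb v ^ qx a m (kpa s m)) x ≤ η := by
    intro t' ht' x
    have hg := glob_bounds HL.H hf h0 (t := t') ⟨ht'.1.le, ht'.2⟩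
    exact hE l hl le_rfl (f t') _ (fs_of hf hpl ht') hg.mass hg.energy hg.entropy x
  set X : ℝ → ℝ := fun V => ∫ τ in r..t, IX a m V f univ τ with hX
  have hX0 : ∀ V, 1 ≤ V → 0 ≤ X V := fun V hV =>
    intervalIntegral.integral_nonneg hrt fun τ hτ => integral_nonneg fun x =>
      YW_nonneg hV (hf.nonneg τ ⟨hr.le.trans hτ.1, hτ.2.trans_lt htT⟩ x) _
  have main : ∀ V, 1 ≤ V → X V ≤ A * (V ^ (-1 : ℝ) * (1 + (t - r))) + B * h +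
      D * (η * (X V + V ^ (-1 : ℝ) * X 1 + h)) := by
    intro V hV
    have hy : 0 ≤ V ^ (-1 : ℝ) := Real.rpow_nonneg (by linarith) _
    obtain ⟨s1, s2⟩ := split_sol (a := a) (m := m) ha0 ha1 hm1 hV hf hr hrt htT hδ.le e ε₁ (kpa s m)
    have h3 := hA M T f hf h0 V hV r t hr hrt htT
    have h4 := hB T f hf V hV r t hr hrt htT
    have h5 := hD M T f hf hpl h0 l η hl hl1 hη0.le hloc V hV r t hr hrt htT
    have e5 : M ^ 2 * V ^ (-1 : ℝ) / l * (1 + (t - r)) = M ^ 2 / l * V ^ (-1 : ℝ) * (1 + (t - r)) := by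
      ring
    rw [e5] at h5
    have h6 := clos_alg (N := M ^ 2 / l) (η := η) (K := K) (Z := X V + V ^ (-1 : ℝ) * X 1 + h) hc₁ hC₁ hC₂ hc
      hM0 hy hτ0 hH s1 s2 h3 h4 h5
    rw [hAdef, abs_of_nonneg hM0]
    exact h6
  have hone : (1 : ℝ) ^ (-1 : ℝ) = 1 := Real.one_rpow _
  have x1 := main 1 le_rfl
  rw [hone, one_mul, one_mul] at x1
  have hX1 := hX0 1 le_rfl
  have x2 : X 1 ≤ 2 * A * (1 + (t - r)) + (2 * B + 1) * h := by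
    have h7 : D * (η * (X 1 + X 1 + h)) ≤ 1 / 4 * (X 1 + X 1 + h) := by
      rw [← mul_assoc]
      exact mul_le_mul_of_nonneg_right hDη (by linarith)
    linarith
  have x3 := main V hV
  have hy : 0 ≤ V ^ (-1 : ℝ) := Real.rpow_nonneg (by linarith) _
  have hy1 : V ^ (-1 : ℝ) ≤ 1 := Real.rpow_le_one_of_one_le_of_nonpos hV (by norm_num)
  have hXV := hX0 V hV
  have x4 : D * (η * (X V + V ^ (-1 : ℝ) * X 1 + h)) ≤ 1 / 4 * (X V + V ^ (-1 : ℝ) * X 1 + h) := by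
    rw [← mul_assoc]
    refine mul_le_mul_of_nonneg_right hDη ?_
    have := mul_nonneg hy hX1
    linarith
  have x5 : V ^ (-1 : ℝ) * X 1 ≤ 2 * A * (V ^ (-1 : ℝ) * (1 + (t - r))) + (2 * B + 1) * h := by
    have h8 := mul_le_mul_of_nonneg_left x2 hy
    have h9 : V ^ (-1 : ℝ) * ((2 * B + 1) * h) ≤ (2 * B + 1) * h :=
      mul_le_of_le_one_left (by positivity) hy1
    calc V ^ (-1 : ℝ) * X 1 ≤ V ^ (-1 : ℝ) * (2 * A * (1 + (t - r)) + (2 * B + 1) * h) := h8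
      _ = 2 * A * (V ^ (-1 : ℝ) * (1 + (t - r))) + V ^ (-1 : ℝ) * ((2 * B + 1) * h) := by ring
      _ ≤ _ := by linarith
  have hW : 0 ≤ V ^ (-1 : ℝ) * (1 + (t - r)) := mul_nonneg hy (by linarith)
  have hgoal : X V ≤ (4 * A + 4 * B + 4) * (V ^ (-1 : ℝ) * (1 + (t - r)) + h) := by
    have hAW := mul_nonneg hA0 hW
    have hBh := mul_nonneg hB0 hH
    have hAh := mul_nonneg hA0 hH
    have hBW := mul_nonneg hB0 hW
    nlinarith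
  exact hgoal

end Pool.Agent.H71.PY
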