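import Pool.Agent.H71.PX.Defs

/-!
# Blocks X and T of the extension to `γ = 1` and `d = 2` (MP_c15324_an): definitions

`γ = 1 + a` with `0 ≤ a` (H71/PX: `0 < a`). For `a = 0` the near part of the weight `Th0` is bounded but not continuous at `V = 0`; it is multiplied
by `min(1,|V|/r)`, all bounds are uniform in `r ∈ (0,1]`, and `r → 0` in TimCY.
-/

set_option autoImplicit false

open MeasureTheory Set Filter Topology Pool.Agent.H25.Kin Pool.Agent.H48.PL Pool.Agent.H48.PI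
open Pool.Agent.H25.PT Pool.Agent.H48.PW Pool.Agent.H71.PX

namespace Pool.Agent.H71.PY

variable {d : ℕ}

/-- the conditions on the exponents, `0 ≤ a` -/
structure EY (a m κ : ℝ) : Prop where
  ha : 0 ≤ a
  hm : 0 < m
  hκ : 1 ≤ κ
  hq : κ * (1 + m) + a < 2

/-- `Th0` times `min(1,|V|/r)` -/
noncomputable def ThR (e : Fin d) (a m κ ε r : ℝ) (V : Vec d) : ℝ :=
  min 1 (len V / r) * Th0 e a m κ ε V

/-- the part of `ThR` with `|V| ≤ 2` -/
noncomputable def N2R (e : Fin d) (a m κ ε r : ℝ) (V : Vec d) : ℝ := cu (len V) * ThR e a m κ ε r V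

/-- the antisymmetric weight -/
noncomputable def TVR (e : Fin d) (a m κ ε r V : ℝ) (v w : Vec d) : ℝ :=
  Sm m V (jb v) (jb w) * ThR e a m κ ε r (v - w)

/-- its part with `|v-w| ≤ 2` -/
noncomputable def T2R (e : Fin d) (a m κ ε r V : ℝ) (v w : Vec d) : ℝ :=
  Sm m V (jb v) (jb w) * N2R e a m κ ε r (v - w)

/-- the pairs with `|v-w| ≥ r` -/
def FarS (d : ℕ) (r : ℝ) : Set (Vec d × Vec d) := {p | r ≤ len (p.1 - p.2)}

lemma ThR_far (e : Fin d) (a m κ ε : ℝ) {r : ℝ} (hr : 0 < r) {V : Vec d} (h : r ≤ len V) :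
    ThR e a m κ ε r V = Th0 e a m κ ε V := by
  unfold ThR
  rw [min_eq_left ((one_le_div hr).2 h), one_mul]

lemma TVR_split (e : Fin d) (a m κ ε : ℝ) {r : ℝ} (hr : 0 < r) (hr1 : r ≤ 1) (V : ℝ) (v w : Vec d) :
    TVR e a m κ ε r V v w = T1 e a m κ ε V v w + T2R e a m κ ε r V v w := by
  have h : (1 - cu (len (v - w))) * ThR e a m κ ε r (v - w) = N1 e a m κ ε (v - w) := by
    unfold N1
    rcases le_or_gt (len (v - w)) 1 with h1 | h1
    · have : cu (len (v - w)) = 1 := by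
        unfold cu
        rw [min_eq_left (by linarith), max_eq_right zero_le_one]
      rw [this]
      ring
    · rw [ThR_far e a m κ ε hr (hr1.trans h1.le)]
  unfold TVR T1 T2R N2R
  rw [← h]
  ring

lemma EY.facts {a m κ : ℝ} (E : EY a m κ) : 0 < m ∧ m < 1 ∧ a < 1 ∧ a + m < 1 ∧ a + m + κ < 2 ∧
    a + m + κ ≤ qx a m κ ∧ a + κ ≤ qx a m κ ∧ 0 ≤ qx a m κ ∧ qx a m κ < 2 ∧ κ < 2 := by
  have h1 := E.ha
  have h5 := E.hm
  have h3 := E.hκ
  have h4 := E.hq
  have h6 : 1 * m ≤ κ * m := mul_le_mul_of_nonneg_right h3 h5.le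
  have h7 : κ * (1 + m) = κ + κ * m := by ring
  unfold qx
  refine ⟨h5, ?_, ?_, ?_, ?_, ?_, ?_, ?_, ?_, ?_⟩ <;> nlinarith

end Pool.Agent.H71.PY
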