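import Pool.Agent.H71.PX.YB
import Pool.Agent.H48.PL.Rot
import Pool.Agent.H48.PL.Prod

/-!
# Module EntY (copy of PX/EntM, `0 ≤ a`): thin pairs against transversal pairs, restricted to `R > ρ₁` (cut-off level); copy of PT/EntAZ with the threshold `ε₁ ⟨V⟩^(-κ)`
-/

set_option autoImplicit false

open MeasureTheory Set Filter Topology Pool.Agent.H25.Kin Pool.Agent.H82.BK Pool.Agent.H82.CM
open Pool.Agent.H48.PL Pool.Agent.H48.PI Pool.Agent.H25.PT Pool.Agent.H48.PW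
open Pool.Agent.H71.PX

namespace Pool.Agent.H71.PY


variable {d : ℕ} {s a m C Ca cb : ℝ} {b : ℝ → ℝ}

/-- the threshold angle -/
private noncomputable def entU (ε₁ κ : ℝ) (v w : Vec d) : ℝ := ε₁ * jb (v - w) ^ (-κ)

/-- the length of the relative velocity is conserved -/
lemma jb_post_sub {v w σ : Vec d} (hσ : nsq σ = 1) : jb (post v w σ - post' v w σ) = jb (v - w) := by
  have h := len_post (v := v) (w := w) hσ
  unfold jb
  rw [← len_sq (post v w σ - post' v w σ), h, len_sq]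

private lemma entU_pos {ε₁ κ : ℝ} (h : 0 < ε₁) (v w : Vec d) : 0 < entU ε₁ κ v w :=
  mul_pos h (Real.rpow_pos_of_pos (jb_pos _) _)

private lemma entU_le {ε₁ κ : ℝ} (h : 0 < ε₁) (hκ : 0 ≤ κ) (v w : Vec d) : entU ε₁ κ v w ≤ ε₁ := by
  have h1 := Real.rpow_le_one_of_one_le_of_nonpos (one_le_jb (v - w)) (neg_nonpos.2 hκ)
  unfold entU
  nlinarith

private lemma ent_kap (hs : 0 < s) : kpa s m * (2 * s) = m := by
  unfold kpa
  field_simp

private lemma entU_pow {ε₁ : ℝ} (h : 0 < ε₁) (hs : 0 < s) (v w : Vec d) :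
    entU ε₁ (kpa s m) v w ^ (-(2 * s)) = ε₁ ^ (-(2 * s)) * jb (v - w) ^ m := by
  unfold entU
  rw [Real.mul_rpow h.le (Real.rpow_nonneg (jb_pos _).le _), ← Real.rpow_mul (jb_pos _).le]
  have e : -kpa s m * -(2 * s) = m := by
    rw [neg_mul_neg]
    exact ent_kap hs
  rw [e]

private lemma entU_meas (ε₁ κ : ℝ) :
    Measurable fun p : Vec d × Vec d × Vec d => entU ε₁ κ p.1 p.2.1 := by
  unfold entU
  have h : Measurable fun p : Vec d × Vec d × Vec d => jb (p.1 - p.2.1) :=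
    (jb_cont.comp (by fun_prop : Continuous fun p : Vec d × Vec d × Vec d =>
      p.1 - p.2.1)).measurable
  exact (h.pow_const _).const_mul _

/-- integrability of the kernel times the product -/
private lemma ent_int {γ : ℝ} (H : Hyp d γ s b C Ca) {ε : ℝ} (hε : 0 < ε) {G : Vec d → ℝ} (hG : RD G)
    (hGc : Continuous G) :
    Integrable (fun p : Vec d × Vec d × Vec d =>
      kerB γ b ε p.1 p.2.1 p.2.2 * (G p.2.1 * G p.1)) (mu3 d) := by
  obtain ⟨A2, hA2, hA2'⟩ := prod_le' hG (d + 1 + (d + 5) + 0)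
  have mv : Measurable fun p : Vec d × Vec d × Vec d => p.1 := measurable_fst
  have mw : Measurable fun p : Vec d × Vec d × Vec d => p.2.1 := measurable_fst.comp measurable_snd
  have h := int_piece (P := fun p : Vec d × Vec d × Vec d => G p.2.1 * G p.1) (Φ := fun _ => 1)
    (K := 0) (A := A2) (B := 1) H.hd H.g1 H.g2 H.bm H.bd H.β0 hε
    ((hGc.measurable.comp mw).mul (hGc.measurable.comp mv)) measurable_const hA2 zero_le_one
    (fun v w σ _ => by have := hA2' v w; rw [mul_comm] at this; exact this)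
    (fun v w σ _ => by simp)
  simpa using h

/-- Fubini on a measurable set -/
private lemma ent_fub {γ : ℝ} (H : Hyp d γ s b C Ca) {ε : ℝ} (hε : 0 < ε) {G : Vec d → ℝ} (hG : RD G)
    (hGc : Continuous G) {S : Set (Vec d × Vec d × Vec d)} (hS : MeasurableSet S) :
    Integrable (fun q : Vec d × Vec d => G q.1 * G q.2 *
      ∫ σ in {σ : Vec d | (q.1, q.2, σ) ∈ S}, kerB γ b ε q.1 q.2 σ ∂(surf d)) ∧
    ∫ p in S, kerB γ b ε p.1 p.2.1 p.2.2 * (G p.2.1 * G p.1) ∂(mu3 d) =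
      ∫ q : Vec d × Vec d, G q.1 * G q.2 *
        ∫ σ in {σ : Vec d | (q.1, q.2, σ) ∈ S}, kerB γ b ε q.1 q.2 σ ∂(surf d) := by
  have i := (ent_int H hε hG hGc).indicator hS
  have h3 : MeasurePreserving (MeasurableEquiv.prodAssoc (α := Vec d) (β := Vec d) (γ := Vec d))
      (((volume : Measure (Vec d)).prod volume).prod (surf d)) (mu3 d) :=
    measurePreserving_prodAssoc _ _ _
  have i2 := h3.integrable_comp_of_integrable i
  have e0 := h3.integral_comp' (S.indicator fun p : Vec d × Vec d × Vec d =>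
      kerB γ b ε p.1 p.2.1 p.2.2 * (G p.2.1 * G p.1))
  have ei : (fun q : Vec d × Vec d => ∫ σ, ((S.indicator fun p : Vec d × Vec d × Vec d =>
      kerB γ b ε p.1 p.2.1 p.2.2 * (G p.2.1 * G p.1)) ∘
      (MeasurableEquiv.prodAssoc (α := Vec d) (β := Vec d) (γ := Vec d))) (q, σ) ∂(surf d)) =
      fun q : Vec d × Vec d => G q.1 * G q.2 *
        ∫ σ in {σ : Vec d | (q.1, q.2, σ) ∈ S}, kerB γ b ε q.1 q.2 σ ∂(surf d) := by
    funext q
    have hSq : MeasurableSet {σ : Vec d | (q.1, q.2, σ) ∈ S} :=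
      (measurable_const.prodMk (measurable_const.prodMk measurable_id)) hS
    rw [← integral_const_mul, ← integral_indicator hSq]
    refine integral_congr_ae (Eventually.of_forall fun σ => ?_)
    change S.indicator (fun p : Vec d × Vec d × Vec d =>
      kerB γ b ε p.1 p.2.1 p.2.2 * (G p.2.1 * G p.1)) (q.1, q.2, σ) =
      {σ : Vec d | (q.1, q.2, σ) ∈ S}.indicator
        (fun σ => G q.1 * G q.2 * kerB γ b ε q.1 q.2 σ) σ
    by_cases hm : (q.1, q.2, σ) ∈ S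
    · rw [indicator_of_mem hm, indicator_of_mem (show σ ∈ {σ : Vec d | (q.1, q.2, σ) ∈ S} from hm)]
      ring
    · rw [indicator_of_notMem hm,
        indicator_of_notMem (show σ ∉ {σ : Vec d | (q.1, q.2, σ) ∈ S} from hm)]
  have i3 := i2.integral_prod_left
  have e2 := integral_prod _ i2
  rw [ei] at i3 e2
  refine ⟨i3, ?_⟩
  rw [← integral_indicator hS]
  exact e0.symm.trans e2

private lemma ent_ne (hd : 1 ≤ d) : ∀ᵐ p ∂(volume : Measure (Vec d × Vec d)), p.1 ≠ p.2 := by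
  have hne : Nonempty (Fin d) := ⟨⟨0, by omega⟩⟩
  have hs : MeasurableSet {p : Vec d × Vec d | p.1 ≠ p.2} :=
    (isClosed_eq continuous_fst continuous_snd).measurableSet.compl
  refine (Measure.ae_prod_iff_ae_ae hs).2 (Eventually.of_forall fun v => ?_)
  have : (volume : Measure (Vec d)) {v} = 0 := measure_singleton v
  filter_upwards [compl_mem_ae_iff.2 this] with w hw h
  exact hw h.symm

/-- the set of the triples which are rotated -/
private def entS (e : Fin d) (δ ε₁ κ ρ₁ ρ : ℝ) : Set (Vec d × Vec d × Vec d) :=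
  {p | ((p.1, p.2.1) : Vec d × Vec d) ∈
      ((CmpS δ ∩ (NtM e ε₁ κ)ᶜ) ∩ Gt ρ₁) ∩ {p : Vec d × Vec d | RR p.1 p.2 ≤ ρ} ∧
    p.2.2 ∈ RotS e (entU ε₁ κ p.1 p.2.1) p.1 p.2.1}

private lemma entGt_meas (ρ₁ : ℝ) : MeasurableSet (Gt (d := d) ρ₁) :=
  (isOpen_lt continuous_const RR_cont).measurableSet

private lemma ent_Bmeas (e : Fin d) (δ ε₁ κ ρ₁ ρ : ℝ) :
    MeasurableSet (((CmpS δ ∩ (NtM e ε₁ κ)ᶜ) ∩ Gt ρ₁) ∩ {p : Vec d × Vec d | RR p.1 p.2 ≤ ρ}) :=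
  (((measurableSet_CmpS δ).inter (measurableSet_NtM e ε₁ κ).compl).inter
    (entGt_meas ρ₁)).inter (isClosed_le RR_cont continuous_const).measurableSet

private lemma entS_meas (e : Fin d) (δ ε₁ κ ρ₁ ρ : ℝ) : MeasurableSet (entS e δ ε₁ κ ρ₁ ρ) := by
  have m1 : Measurable fun p : Vec d × Vec d × Vec d => ((p.1, p.2.1) : Vec d × Vec d) :=
    measurable_fst.prodMk (measurable_fst.comp measurable_snd)
  have m2 := entU_meas (d := d) ε₁ κ
  have m3 : Measurable fun p : Vec d × Vec d × Vec d => cosTh p.1 p.2.1 p.2.2 := measurable_cosTh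
  have m4 : Measurable fun p : Vec d × Vec d × Vec d => nsq p.2.2 :=
    (continuous_sq.comp (continuous_snd.comp continuous_snd)).measurable
  have m5 : Measurable fun p : Vec d × Vec d × Vec d => |p.2.2 e| := by
    have : Continuous fun p : Vec d × Vec d × Vec d => |p.2.2 e| := by fun_prop
    exact this.measurable
  have s1 := m1 (ent_Bmeas e δ ε₁ κ ρ₁ ρ)
  have s2 : MeasurableSet {p : Vec d × Vec d × Vec d | nsq p.2.2 = 1} :=
    measurableSet_eq_fun m4 measurable_const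
  have s3 : MeasurableSet {p : Vec d × Vec d × Vec d |
      6 * entU ε₁ κ p.1 p.2.1 ^ 2 ≤ 1 - cosTh p.1 p.2.1 p.2.2} :=
    measurableSet_le ((m2.pow_const 2).const_mul 6) (measurable_const.sub m3)
  have s4 : MeasurableSet {p : Vec d × Vec d × Vec d |
      1 - cosTh p.1 p.2.1 p.2.2 ≤ 19 * entU ε₁ κ p.1 p.2.1 ^ 2} :=
    measurableSet_le (measurable_const.sub m3) ((m2.pow_const 2).const_mul 19)
  have s5 : MeasurableSet {p : Vec d × Vec d × Vec d | entU ε₁ κ p.1 p.2.1 ≤ |p.2.2 e|} :=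
    measurableSet_le m2 m5
  exact s1.inter (s2.inter (s3.inter (s4.inter s5)))

/-- the geometry of a rotated pair -/
private lemma ent_geo {e : Fin d} {δ ε₁ κ ρ₁ ρ : ℝ} (hδ : 0 < δ) (hε₁ : 0 < ε₁) (hε₂ : ε₁ ≤ δ / 40)
    (hκ : 0 ≤ κ) {v w σ : Vec d} (hvw : v ≠ w) (hσ : nsq σ = 1)
    (h : coll (v, w, σ) ∈ entS e δ ε₁ κ ρ₁ ρ) :
    (v, w) ∈ (CmpS (δ / 2) ∩ NtM e ε₁ κ) ∩ Gt ρ₁ ∧ 6 * entU ε₁ κ v w ^ 2 ≤ 1 - cosTh v w σ := by
  obtain ⟨⟨⟨⟨hc, -⟩, hG⟩, -⟩, -, h6, h19, hu⟩ := h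
  simp only [coll] at hc hG h6 h19 hu
  have hU : entU ε₁ κ (post v w σ) (post' v w σ) = entU ε₁ κ v w := by
    unfold entU
    rw [jb_post_sub hσ]
  rw [hU, cosTh_post hvw hσ] at h6 h19
  rw [hU] at hu
  have hc1 : δ * RR (post v w σ) (post' v w σ) ≤ jb (post v w σ) := hc.1
  have hc2 : δ * RR (post v w σ) (post' v w σ) ≤ jb (post' v w σ) := hc.2
  rw [RR_post hσ] at hc1 hc2
  have hup := entU_pos (κ := κ) hε₁ v w
  have hule := entU_le hε₁ hκ v w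
  have hR := RR_pos v w
  have hnn := nsq_sub_le_RR v w
  have hn0 := sq_nonneg' (v - w)
  have hx0 : 0 ≤ 1 - cosTh v w σ := le_trans (by positivity) h6
  -- the displacement
  have hdis : nsq (v - w) * ((1 - cosTh v w σ) / 2) ≤ (δ / 2 * RR v w) ^ 2 := by
    have h1 : nsq (v - w) * ((1 - cosTh v w σ) / 2) ≤
        (2 * RR v w ^ 2) * (19 * entU ε₁ κ v w ^ 2 / 2) := by
      refine mul_le_mul hnn (by linarith) (by linarith) (by positivity)
    have h2 : entU ε₁ κ v w ^ 2 ≤ (δ / 40) ^ 2 :=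
      pow_le_pow_left₀ hup.le (hule.trans hε₂) 2
    have hR2 : 0 < RR v w ^ 2 := by positivity
    have h3 : (2 * RR v w ^ 2) * (19 * entU ε₁ κ v w ^ 2 / 2) ≤
        (2 * RR v w ^ 2) * (19 * (δ / 40) ^ 2 / 2) := by
      refine mul_le_mul_of_nonneg_left ?_ (by positivity)
      linarith
    refine h1.trans (h3.trans ?_)
    have h4 : 0 ≤ RR v w ^ 2 * δ ^ 2 := by positivity
    nlinarith
  have hpos : 0 ≤ δ / 2 * RR v w := by positivity
  have d1 : len (post v w σ - v) ≤ δ / 2 * RR v w := by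
    have h1 := nsq_post_sub hvw hσ
    have h2 : len (post v w σ - v) ^ 2 ≤ (δ / 2 * RR v w) ^ 2 := by
      rw [len_sq, h1]
      exact hdis
    exact (pow_le_pow_iff_left₀ (len_nonneg _) hpos (by norm_num)).1 h2
  have d2 : len (post' v w σ - w) ≤ δ / 2 * RR v w := by
    have h1 := nsq_post'_sub hvw hσ
    have h2 : len (post' v w σ - w) ^ 2 ≤ (δ / 2 * RR v w) ^ 2 := by
      rw [len_sq, h1]
      exact hdis
    exact (pow_le_pow_iff_left₀ (len_nonneg _) hpos (by norm_num)).1 h2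
  have j1 := (abs_le.1 (jb_lip (post v w σ) v)).2
  have j2 := (abs_le.1 (jb_lip (post' v w σ) w)).2
  have hG' : ρ₁ < RR (post v w σ) (post' v w σ) := hG
  rw [RR_post hσ] at hG'
  refine ⟨⟨⟨⟨?_, ?_⟩, ?_⟩, hG'⟩, h6⟩
  · change δ / 2 * RR v w ≤ jb v
    linarith
  · change δ / 2 * RR v w ≤ jb w
    linarith
  · change ε₁ * jb (v - w) ^ (-κ) * len (v - w) ≤ |v e - w e|
    have e1 : v e - w e = len (v - w) * dirk v w e := by
      have := congrFun (len_smul_dirk v w) e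
      simpa using this.symm
    rw [e1, abs_mul, abs_of_nonneg (len_nonneg _), mul_comm]
    exact mul_le_mul_of_nonneg_left hu (len_nonneg _)

/-- the lower bound -/
private lemma ent_lower (HL : HypL d (1 + a) s b C Ca cb) (ha : 0 ≤ a) (ha1 : a ≤ 1) (hm0 : 0 < m) (hm1 : m ≤ 1) (e : Fin d)
    {δ ε₁ c ρ₁ ρ ε : ℝ} (hε₁ : 0 < ε₁) (hε₂ : ε₁ ≤ 1 / 16)
    (hc : ∀ u : ℝ, 0 < u → u ≤ 1 / 16 → ∀ v w : Vec d, v ≠ w → |v e - w e| < u * len (v - w) →
      ∀ ε : ℝ, 0 < ε → ε ≤ 6 * u ^ 2 →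
      IntegrableOn (fun σ => kerB (1 + a) b ε v w σ) (RotS e u v w) (surf d) ∧
      c * (len (v - w) ^ (1 + a) * u ^ (-(2 * s))) ≤
        ∫ σ in RotS e u v w, kerB (1 + a) b ε v w σ ∂(surf d))
    {G : Vec d → ℝ} (hG : RD G) (hGc : Continuous G) (pos : ∀ v, 0 < G v) (hε : 0 < ε)
    (hερ : ε ≤ 6 * (ε₁ * (2 * max ρ 1) ^ (-kpa s m)) ^ 2) :
    c * ε₁ ^ (-(2 * s)) *
      YS a m G (((CmpS δ ∩ (NtM e ε₁ (kpa s m))ᶜ) ∩ Gt ρ₁) ∩ {p | RR p.1 p.2 ≤ ρ}) ≤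
      ∫ p in entS e δ ε₁ (kpa s m) ρ₁ ρ, kerB (1 + a) b ε p.1 p.2.1 p.2.2 * (G p.2.1 * G p.1)
        ∂(mu3 d) := by
  have hs := HL.H.hs
  have hκ : 0 ≤ kpa s m := by
    unfold kpa
    positivity
  obtain ⟨i1, e1⟩ := ent_fub HL.H hε hG hGc (entS_meas e δ ε₁ (kpa s m) ρ₁ ρ)
  rw [e1]
  unfold YS
  rw [← integral_const_mul, ← integral_indicator (ent_Bmeas e δ ε₁ (kpa s m) ρ₁ ρ)]
  have hid := dn_integrable (m := m) ha ha1 hm1 hG hGc
  refine integral_mono_ae ((hid.const_mul _).indicator (ent_Bmeas e δ ε₁ (kpa s m) ρ₁ ρ)) i1 ?_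
  filter_upwards [ent_ne HL.H.hd1] with q hq
  obtain ⟨v, w⟩ := q
  by_cases hm : (v, w) ∈ ((CmpS δ ∩ (NtM e ε₁ (kpa s m))ᶜ) ∩ Gt ρ₁) ∩ {p : Vec d × Vec d | RR p.1 p.2 ≤ ρ}
  · rw [indicator_of_mem hm]
    have hset : {σ : Vec d | (v, w, σ) ∈ entS e δ ε₁ (kpa s m) ρ₁ ρ} =
        RotS e (entU ε₁ (kpa s m) v w) v w := by
      ext σ
      exact ⟨fun h => h.2, fun h => ⟨hm, h⟩⟩
    change c * ε₁ ^ (-(2 * s)) * dn a m G (v, w) ≤ G v * G w *
      ∫ σ in {σ : Vec d | (v, w, σ) ∈ entS e δ ε₁ (kpa s m) ρ₁ ρ}, kerB (1 + a) b ε v w σ ∂(surf d)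
    rw [hset]
    have hup := entU_pos (κ := kpa s m) hε₁ v w
    have hule := entU_le hε₁ hκ v w
    have hnt : |v e - w e| < entU ε₁ (kpa s m) v w * len (v - w) := not_le.1 hm.1.1.2
    have hρ : jb (v - w) ≤ 2 * max ρ 1 := (jb_sub_le v w).trans
      (mul_le_mul_of_nonneg_left (le_trans hm.2 (le_max_left _ _)) (by norm_num))
    have hlo : ε₁ * (2 * max ρ 1) ^ (-kpa s m) ≤ entU ε₁ (kpa s m) v w := by
      unfold entU
      refine mul_le_mul_of_nonneg_left ?_ hε₁.le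
      exact Real.rpow_le_rpow_of_nonpos (jb_pos _) hρ (neg_nonpos.2 hκ)
    have hlo0 : 0 ≤ ε₁ * (2 * max ρ 1) ^ (-kpa s m) :=
      mul_nonneg hε₁.le (Real.rpow_nonneg (mul_nonneg (by norm_num) (le_trans zero_le_one (le_max_right _ _))) _)
    have hε6 : ε ≤ 6 * entU ε₁ (kpa s m) v w ^ 2 := by
      have := pow_le_pow_left₀ hlo0 hlo 2
      linarith
    obtain ⟨-, h2⟩ := hc _ hup (hule.trans hε₂) v w hq hnt ε hε hε6
    rw [entU_pow hε₁ hs] at h2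
    have hGG : 0 ≤ G v * G w := (mul_pos (pos v) (pos w)).le
    have h3 := mul_le_mul_of_nonneg_left h2 hGG
    refine le_trans (le_of_eq ?_) h3
    unfold dn
    ring
  · rw [indicator_of_notMem hm]
    have hset : {σ : Vec d | (v, w, σ) ∈ entS e δ ε₁ (kpa s m) ρ₁ ρ} = ∅ := by
      ext σ
      simp only [mem_ofPred_eq, mem_empty_iff_false, iff_false]
      exact fun h => hm h.1
    change 0 ≤ G v * G w *
      ∫ σ in {σ : Vec d | (v, w, σ) ∈ entS e δ ε₁ (kpa s m) ρ₁ ρ}, kerB (1 + a) b ε v w σ ∂(surf d)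
    rw [hset, setIntegral_empty, mul_zero]

/-- the upper bound -/
private lemma ent_upper (HL : HypL d (1 + a) s b C Ca cb) (ha : 0 ≤ a) (ha1 : a ≤ 1) (hm0 : 0 < m) (hm1 : m ≤ 1) (e : Fin d)
    {δ ε₁ K ρ₁ ρ ε : ℝ} (hδ : 0 < δ) (hε₁ : 0 < ε₁) (hε₂ : ε₁ ≤ δ / 40) (hK0 : 0 ≤ K)
    (hK : ∀ ε : ℝ, 0 < ε → ∀ v w : Vec d, v ≠ w → ∀ u : ℝ, 0 < u →
      IntegrableOn (fun σ => kerB (1 + a) b ε v w σ) {σ | u ≤ 1 - cosTh v w σ} (surf d) ∧
      ∫ σ in {σ : Vec d | u ≤ 1 - cosTh v w σ}, kerB (1 + a) b ε v w σ ∂(surf d) ≤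
        K * len (v - w) ^ (1 + a) * u ^ (-s))
    {G : Vec d → ℝ} (hG : RD G) (hGc : Continuous G) (pos : ∀ v, 0 < G v) (hε : 0 < ε) :
    ∫ p in coll ⁻¹' entS e δ ε₁ (kpa s m) ρ₁ ρ,
        kerB (1 + a) b ε p.1 p.2.1 p.2.2 * (G p.2.1 * G p.1) ∂(mu3 d) ≤
      K * ε₁ ^ (-(2 * s)) * YS a m G ((CmpS (δ / 2) ∩ NtM e ε₁ (kpa s m)) ∩ Gt ρ₁) := by
  have hs := HL.H.hs
  have hκ : 0 ≤ kpa s m := by
    unfold kpa
    positivity
  have hcm : MeasurableSet (coll (d := d) ⁻¹' entS e δ ε₁ (kpa s m) ρ₁ ρ) :=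
    (coll_preserving HL.H.hd1).measurable (entS_meas e δ ε₁ (kpa s m) ρ₁ ρ)
  have hDm : MeasurableSet ((CmpS (δ / 2) ∩ NtM e ε₁ (kpa s m)) ∩ Gt ρ₁) :=
    ((measurableSet_CmpS _).inter (measurableSet_NtM _ _ _)).inter (entGt_meas _)
  obtain ⟨i1, e1⟩ := ent_fub HL.H hε hG hGc hcm
  rw [e1]
  unfold YS
  rw [← integral_const_mul, ← integral_indicator hDm]
  have hid := dn_integrable (m := m) ha ha1 hm1 hG hGc
  refine integral_mono_ae i1 ((hid.const_mul _).indicator hDm) ?_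
  filter_upwards [ent_ne HL.H.hd1] with q hq
  obtain ⟨v, w⟩ := q
  have hvw : v ≠ w := hq
  change G v * G w *
      ∫ σ in {σ : Vec d | (v, w, σ) ∈ coll ⁻¹' entS e δ ε₁ (kpa s m) ρ₁ ρ},
        kerB (1 + a) b ε v w σ ∂(surf d) ≤
    ((CmpS (δ / 2) ∩ NtM e ε₁ (kpa s m)) ∩ Gt ρ₁).indicator
      (fun p => K * ε₁ ^ (-(2 * s)) * dn a m G p) (v, w)
  have hGG : 0 ≤ G v * G w := (mul_pos (pos v) (pos w)).le
  by_cases hm : (v, w) ∈ (CmpS (δ / 2) ∩ NtM e ε₁ (kpa s m)) ∩ Gt ρ₁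
  · rw [indicator_of_mem hm]
    have hup := entU_pos (κ := kpa s m) hε₁ v w
    have hu6 : 0 < 6 * entU ε₁ (kpa s m) v w ^ 2 := by positivity
    obtain ⟨i2, h2⟩ := hK ε hε v w hvw _ hu6
    have h3 : ∫ σ in {σ : Vec d | (v, w, σ) ∈ coll ⁻¹' entS e δ ε₁ (kpa s m) ρ₁ ρ},
        kerB (1 + a) b ε v w σ ∂(surf d) ≤
        ∫ σ in {σ : Vec d | 6 * entU ε₁ (kpa s m) v w ^ 2 ≤ 1 - cosTh v w σ},
          kerB (1 + a) b ε v w σ ∂(surf d) := by
      refine setIntegral_mono_set i2 ?_ ?_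
      · refine ae_restrict_of_ae ?_
        filter_upwards [surf_ae (d := d)] with σ hσ
        exact kerB_nonneg HL.H.bd hε hσ
      · filter_upwards [surf_ae (d := d)] with σ hσ hσm
        exact (ent_geo hδ hε₁ hε₂ hκ hvw hσ hσm).2
    have h4 : (6 * entU ε₁ (kpa s m) v w ^ 2) ^ (-s) ≤ ε₁ ^ (-(2 * s)) * jb (v - w) ^ m := by
      rw [← entU_pow hε₁ hs]
      have h5 : (6 * entU ε₁ (kpa s m) v w ^ 2) ^ (-s) ≤ (entU ε₁ (kpa s m) v w ^ 2) ^ (-s) := by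
        refine Real.rpow_le_rpow_of_nonpos (by positivity) ?_ (by linarith)
        have : 0 ≤ entU ε₁ (kpa s m) v w ^ 2 := by positivity
        linarith
      refine h5.trans (le_of_eq ?_)
      rw [← Real.rpow_natCast, ← Real.rpow_mul hup.le]
      congr 1
      push_cast
      ring
    have hl0 : 0 ≤ K * len (v - w) ^ (1 + a) :=
      mul_nonneg hK0 (Real.rpow_nonneg (len_nonneg _) _)
    have h6 := mul_le_mul_of_nonneg_left
      ((h3.trans h2).trans (mul_le_mul_of_nonneg_left h4 hl0)) hGG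
    refine h6.trans (le_of_eq ?_)
    unfold dn
    ring
  · rw [indicator_of_notMem hm]
    have h0 : surf d {σ : Vec d | (v, w, σ) ∈ coll ⁻¹' entS e δ ε₁ (kpa s m) ρ₁ ρ} = 0 := by
      refine measure_mono_null (t := {σ : Vec d | ¬ nsq σ = 1}) ?_ surf_ae
      intro σ hσm hσ
      exact hm (ent_geo hδ hε₁ hε₂ hκ hvw hσ hσm).1
    rw [setIntegral_measure_zero _ h0, mul_zero]

theorem ent_cutM (HL : HypL d (1 + a) s b C Ca cb) (ha : 0 ≤ a) (ha1 : a ≤ 1) (hm0 : 0 < m) (hm1 : m ≤ 1) (e : Fin d) {δ : ℝ}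
    (hδ : 0 < δ) (hδ1 : δ < 1) : ∃ ε₁ C₂ : ℝ, 0 < ε₁ ∧ 0 ≤ C₂ ∧
    ∀ G : Vec d → ℝ, RD G → Continuous G → (∀ v, 0 < G v) → (PG fun v => Real.log (G v)) →
    ∀ ρ : ℝ, ∃ ε₀ : ℝ, 0 < ε₀ ∧ ∀ ε : ℝ, 0 < ε → ε ≤ ε₀ → ∀ ρ₁ : ℝ,
      YS a m G (((CmpS δ ∩ (NtM e ε₁ (kpa s m))ᶜ) ∩ Gt ρ₁) ∩ {p | RR p.1 p.2 ≤ ρ}) ≤
        C₂ * YS a m G ((CmpS (δ / 2) ∩ NtM e ε₁ (kpa s m)) ∩ Gt ρ₁) -
          C₂ * ∫ v, boltzCut (1 + a) b ε G v * Real.log (G v) := by
  obtain ⟨c, hc0, hc⟩ := rot_low HL e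
  obtain ⟨K, hK0, hK⟩ := ker_large HL.H
  have hε₁ : 0 < min (1 / 16 : ℝ) (δ / 40) := lt_min (by norm_num) (by linarith)
  set ε₁ := min (1 / 16 : ℝ) (δ / 40) with hε₁def
  have hE : 0 < ε₁ ^ (-(2 * s)) := Real.rpow_pos_of_pos hε₁ _
  set E := ε₁ ^ (-(2 * s)) with hEdef
  have hcE : 0 < c * E := mul_pos hc0 hE
  refine ⟨ε₁, max (4 * K / c) (4 / (c * E)), hε₁,
    le_trans (by positivity) (le_max_left _ _), fun G hG hGc pos hl ρ => ?_⟩
  have hρ0 : 0 < ε₁ * (2 * max ρ 1) ^ (-kpa s m) :=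
    mul_pos hε₁ (Real.rpow_pos_of_pos (mul_pos (by norm_num) (lt_of_lt_of_le one_pos (le_max_right _ _))) _)
  refine ⟨6 * (ε₁ * (2 * max ρ 1) ^ (-kpa s m)) ^ 2, by positivity, fun ε hε hεle ρ₁ => ?_⟩
  have h1 := ent_lower (δ := δ) (ρ₁ := ρ₁) HL ha ha1 hm0 hm1 e hε₁ (min_le_left _ _) hc hG hGc pos hε hεle
  have h2 := ent_upper (ρ₁ := ρ₁) (ρ := ρ) HL ha ha1 hm0 hm1 e hδ hε₁ (min_le_right _ _) hK0 hK hG hGc pos hε
  have h3 := prod_ineq HL.H hε hG hGc pos hl (entS_meas e δ ε₁ (kpa s m) ρ₁ ρ)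
  have h4 := Pool.Agent.H15.AV.cut_H HL.H hε hG hGc pos hl
  have hX : 0 ≤ YS a m G ((CmpS (δ / 2) ∩ NtM e ε₁ (kpa s m)) ∩ Gt ρ₁) := YS_nonneg (fun v => (pos v).le) _
  set X := YS a m G ((CmpS (δ / 2) ∩ NtM e ε₁ (kpa s m)) ∩ Gt ρ₁) with hXdef
  set Y := YS a m G (((CmpS δ ∩ (NtM e ε₁ (kpa s m))ᶜ) ∩ Gt ρ₁) ∩ {p | RR p.1 p.2 ≤ ρ}) with hYdef
  set J := ∫ v, boltzCut (1 + a) b ε G v * Real.log (G v) with hJdef
  have h5 : c * E * Y ≤ 4 * (K * E * X) - 4 * J := by linarith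
  have h6 : Y ≤ (4 * K / c) * X - (4 / (c * E)) * J := by
    have h7 : Y = (c * E * Y) / (c * E) := by field_simp
    have h8 : (4 * K / c) * X - (4 / (c * E)) * J = (4 * (K * E * X) - 4 * J) / (c * E) := by
      field_simp
    rw [h7, h8]
    exact div_le_div_of_nonneg_right h5 hcE.le
  have h9 : (4 * K / c) * X ≤ max (4 * K / c) (4 / (c * E)) * X :=
    mul_le_mul_of_nonneg_right (le_max_left _ _) hX
  have h10 : (4 / (c * E)) * (-J) ≤ max (4 * K / c) (4 / (c * E)) * (-J) :=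
    mul_le_mul_of_nonneg_right (le_max_right _ _) (by linarith)
  linarith



end Pool.Agent.H71.PY
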