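import Pool.Agent.H71.PY.ThA
import Pool.Agent.H71.PX.SmA
import Pool.Agent.H71.PX.YB

/-!
# Module TVR (PX/TVB with `TVR`, `0 ≤ a`): the weight `TVR`

-/

set_option autoImplicit false

open MeasureTheory Set Filter Topology Pool.Agent.H25.Kin Pool.Agent.H48.PL Pool.Agent.H48.PI
open Pool.Agent.H25.PT
open Pool.Agent.H71.PX

namespace Pool.Agent.H71.PY

variable {d : ℕ} {a m κ ε r : ℝ}

private lemma tvb_S {m V j k X c : ℝ} (hm1 : m ≤ 1) (hV : 1 ≤ V) (hj : 1 ≤ j) (hk : 1 ≤ k) (hc : 0 ≤ c)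
    (hX : |X| ≤ c * max j k ^ 2) :
    |Sm m V j k * X| ≤ c * V ^ (-1 : ℝ) * (j ^ 2 * k ^ 2) := by
  have hV0 : 0 < V := by linarith
  have hμ : 1 ≤ min j k := le_min hj hk
  have hM : 1 ≤ max j k := hj.trans (le_max_left _ _)
  have hμM : min j k ≤ max j k := min_le_max
  have hjk : j ^ 2 * k ^ 2 = min j k ^ 2 * max j k ^ 2 := by
    rw [← mul_pow, ← mul_pow, min_mul_max]
  rw [hjk]
  obtain ⟨μ, hμe⟩ : ∃ μ, μ = min j k := ⟨_, rfl⟩
  obtain ⟨M, hMe⟩ : ∃ M, M = max j k := ⟨_, rfl⟩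
  have hSd : Sm m V j k = (μ / M) ^ 2 * om m V μ := by rw [hμe, hMe]; rfl
  rw [hSd]
  rw [← hμe] at hμ hμM ⊢
  rw [← hMe] at hM hX hμM ⊢
  have hμ0 : 0 < μ := by linarith
  have hM0 : 0 < M := by linarith
  have hb0 : 0 < min 1 (μ / V) := lt_min one_pos (div_pos hμ0 hV0)
  have hom : om m V μ ≤ μ / V := by
    have h1 : om m V μ ≤ min 1 (μ / V) ^ (1 : ℝ) :=
      Real.rpow_le_rpow_of_exponent_ge hb0 (min_le_left _ _) (by linarith)
    rw [Real.rpow_one] at h1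
    exact h1.trans (min_le_right _ _)
  have hom0 : 0 ≤ om m V μ := Real.rpow_nonneg hb0.le _
  rw [abs_mul, abs_of_nonneg (mul_nonneg (sq_nonneg _) hom0), Real.rpow_neg_one]
  calc (μ / M) ^ 2 * om m V μ * |X| ≤ (μ / M) ^ 2 * (μ / V) * (c * M ^ 2) :=
        mul_le_mul (mul_le_mul_of_nonneg_left hom (sq_nonneg _)) hX (abs_nonneg _) (by positivity)
    _ = c * V⁻¹ * (μ ^ 2 * μ) := by
      field_simp
    _ ≤ c * V⁻¹ * (μ ^ 2 * M ^ 2) := by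
      refine mul_le_mul_of_nonneg_left (mul_le_mul_of_nonneg_left ?_ (sq_nonneg _)) (by positivity)
      nlinarith

private lemma tvb_pow {l b M p q : ℝ} (hl : 0 ≤ l) (hb : 0 < b) (hlM : l ≤ 2 * M) (hbM : b ≤ 2 * M)
    (hM : 1 ≤ M) (hp : 0 ≤ p) (hq : 0 ≤ q) (hpq : p + q ≤ 2) : l ^ p * b ^ q ≤ 4 * M ^ 2 := by
  have hM2 : 0 < 2 * M := by linarith
  calc l ^ p * b ^ q ≤ (2 * M) ^ p * (2 * M) ^ q :=
        mul_le_mul (Real.rpow_le_rpow hl hlM hp) (Real.rpow_le_rpow hb.le hbM hq)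
          (Real.rpow_nonneg hb.le _) (Real.rpow_nonneg hM2.le _)
    _ = (2 * M) ^ (p + q) := (Real.rpow_add hM2 _ _).symm
    _ ≤ (2 * M) ^ (2 : ℝ) := Real.rpow_le_rpow_of_exponent_le (by linarith) hpq
    _ = (2 * M) ^ 2 := Real.rpow_two _
    _ = 4 * M ^ 2 := by ring

private lemma tvb_jb (v w : Vec d) : jb (v - w) ≤ 2 * max (jb v) (jb w) := by
  have h1 := jb_sq (v - w)
  have h2 := len_sub_le v w
  have h3 := len_sq (v - w)
  have h4 := jb_sq v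
  have h5 := jb_sq w
  have h6 := len_sq v
  have h7 := len_sq w
  have hv := one_le_jb v
  have hw := one_le_jb w
  have l0 := len_nonneg (v - w)
  have lv := len_nonneg v
  have lw := len_nonneg w
  have m1 := le_max_left (jb v) (jb w)
  have m2 := le_max_right (jb v) (jb w)
  have k1 : len (v - w) ^ 2 ≤ (len v + len w) ^ 2 := pow_le_pow_left₀ l0 h2 2
  have k2 : len v * len w ≤ jb v * jb w :=
    mul_le_mul (len_le_jb v) (len_le_jb w) lw (by linarith)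
  have k3 : jb (v - w) ^ 2 ≤ (jb v + jb w) ^ 2 := by nlinarith
  have k4 : jb (v - w) ≤ jb v + jb w :=
    le_of_sq_le_sq k3 (by linarith)
  linarith

private lemma tvb_len (v w : Vec d) : len (v - w) ≤ 2 * max (jb v) (jb w) :=
  (len_le_jb _).trans (tvb_jb v w)

lemma TVR_antisymm (e : Fin d) (V : ℝ) (v w : Vec d) :
    TVR e a m κ ε r V w v = -TVR e a m κ ε r V v w := by
  unfold TVR
  rw [Sm_comm, ← neg_sub v w, ThR_neg]
  ring

lemma TVR_abs (E : EY a m κ) (hε : 0 < ε) : ∃ C : ℝ, 0 ≤ C ∧ ∀ r : ℝ, 0 < r → ∀ (e : Fin d) (V : ℝ), 1 ≤ V →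
    ∀ v w : Vec d, |TVR e a m κ ε r V v w| ≤ C * V ^ (-1 : ℝ) * (jb v ^ 2 * jb w ^ 2) := by
  obtain ⟨hm0, hm1, ha1, ham, hamk, -, -, -, -, hκ2⟩ := E.facts
  refine ⟨1 / (2 * ε) * 4, by positivity, fun r hr e V hV v w => ?_⟩
  unfold TVR
  refine tvb_S hm1.le hV (one_le_jb v) (one_le_jb w) (by positivity) ?_
  refine ((ThR_abs_le hr e (v - w)).trans (Th0_abs E.ha hε e (v - w))).trans ?_
  rw [mul_assoc]
  exact mul_le_mul_of_nonneg_left (tvb_pow (len_nonneg _) (jb_pos _) (tvb_len v w) (tvb_jb v w)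
    ((one_le_jb v).trans (le_max_left _ _)) E.ha (by linarith [E.hκ]) (by linarith)) (by positivity)

lemma VTVR_nonneg (hr : 0 < r) (e : Fin d) {V : ℝ} (hV : 1 ≤ V) (v w : Vec d) :
    0 ≤ (v e - w e) * TVR e a m κ ε r V v w := by
  have h1 := VThR_nonneg (a := a) (m := m) (κ := κ) (ε := ε) hr e (v - w)
  rw [Pi.sub_apply] at h1
  unfold TVR
  have e1 : (v e - w e) * (Sm m V (jb v) (jb w) * ThR e a m κ ε r (v - w)) =
      Sm m V (jb v) (jb w) * ((v e - w e) * ThR e a m κ ε r (v - w)) := by ring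
  rw [e1]
  exact mul_nonneg (Sm_nonneg hV (one_le_jb v) (one_le_jb w)) h1

lemma VTVR_le (E : EY a m κ) : ∃ C : ℝ, 0 ≤ C ∧ ∀ r : ℝ, 0 < r → ∀ (e : Fin d) (V : ℝ), 1 ≤ V →
    ∀ v w : Vec d, (v e - w e) * TVR e a m κ ε r V v w ≤ C * V ^ (-1 : ℝ) * (jb v ^ 2 * jb w ^ 2) := by
  obtain ⟨hm0, hm1, ha1, ham, hamk, -, -, -, -, hκ2⟩ := E.facts
  refine ⟨4, by norm_num, fun r hr e V hV v w => ?_⟩
  have h1 := VThR_nonneg (a := a) (m := m) (κ := κ) (ε := ε) hr e (v - w)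
  have h2 := VThR_le (a := a) (m := m) (κ := κ) (ε := ε) (r := r) e (v - w)
  rw [Pi.sub_apply] at h1 h2
  unfold TVR
  have e1 : (v e - w e) * (Sm m V (jb v) (jb w) * ThR e a m κ ε r (v - w)) =
      Sm m V (jb v) (jb w) * ((v e - w e) * ThR e a m κ ε r (v - w)) := by ring
  rw [e1]
  refine (le_abs_self _).trans (tvb_S hm1.le hV (one_le_jb v) (one_le_jb w) (by norm_num) ?_)
  rw [abs_of_nonneg h1]
  exact h2.trans (tvb_pow (len_nonneg _) (jb_pos _) (tvb_len v w) (tvb_jb v w)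
    ((one_le_jb v).trans (le_max_left _ _)) (by linarith [E.ha]) hm0.le (by linarith))

lemma VTVR_low (E : EY a m κ) (hε : 0 < ε) (e : Fin d) {δ : ℝ} (hδ : 0 < δ) (hδ1 : δ < 1) :
    ∃ c : ℝ, 0 < c ∧ ∀ r : ℝ, 0 < r → ∀ V : ℝ, 1 ≤ V → ∀ v w : Vec d,
      (v, w) ∈ ((CmpS (δ / 2) ∩ NtM e ε κ) ∩ FarS d r : Set (Vec d × Vec d)) →
      c * (len (v - w) ^ (1 + a) * jb (v - w) ^ m * om m V (RR v w)) ≤
        (v e - w e) * TVR e a m κ ε r V v w := by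
  obtain ⟨hm0, hm1, ha1, ham, hamk, -, -, -, -, hκ2⟩ := E.facts
  refine ⟨(δ / 2) ^ 6 / 2, by positivity, fun r hr V hV v w hvw => ?_⟩
  obtain ⟨⟨⟨hc1, hc2⟩, hN⟩, hF⟩ := hvw
  have h1 : (δ / 2) ^ 6 * om m V (RR v w) ≤ Sm m V (jb v) (jb w) :=
    Sm_low hm0.le hm1.le hV (one_le_jb v) (one_le_jb w) (by linarith) (by linarith)
      (jb_le_RR_left v w) (jb_le_RR_right v w) hc1 hc2
  have h2 : 1 / 2 * (len (v - w) ^ (1 + a) * jb (v - w) ^ m) ≤ (v - w) e * ThR e a m κ ε r (v - w) := by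
    rw [ThR_far e a m κ ε hr hF]
    exact VTh0_low E.ha hε e (by rw [Pi.sub_apply]; exact hN)
  rw [Pi.sub_apply] at h2
  have h3 : 0 ≤ 1 / 2 * (len (v - w) ^ (1 + a) * jb (v - w) ^ m) :=
    mul_nonneg (by norm_num) (mul_nonneg (Real.rpow_nonneg (len_nonneg _) _)
      (Real.rpow_nonneg (jb_pos _).le _))
  unfold TVR
  calc (δ / 2) ^ 6 / 2 * (len (v - w) ^ (1 + a) * jb (v - w) ^ m * om m V (RR v w))
      = (δ / 2) ^ 6 * om m V (RR v w) * (1 / 2 * (len (v - w) ^ (1 + a) * jb (v - w) ^ m)) := by ring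
    _ ≤ Sm m V (jb v) (jb w) * ((v e - w e) * ThR e a m κ ε r (v - w)) :=
      mul_le_mul h1 h2 h3 (Sm_nonneg hV (one_le_jb v) (one_le_jb w))
    _ = (v e - w e) * (Sm m V (jb v) (jb w) * ThR e a m κ ε r (v - w)) := by ring

lemma TVR_PGW (E : EY a m κ) (hε : 0 < ε) (hr : 0 < r) (e : Fin d) {V : ℝ} (hV : 1 ≤ V) :
    PGW (TVR e a m κ ε r V : Vec d → Vec d → ℝ) := by
  obtain ⟨hm0, hm1, ha1, ham, hamk, -, -, -, -, hκ2⟩ := E.facts
  obtain ⟨C, hC, h⟩ := TVR_abs (d := d) E hε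
  refine ⟨?_, ?_⟩
  · unfold TVR
    exact (Sm_cont hm1.le V).mul ((ThR_cont E.ha hε hr e).comp (continuous_fst.sub continuous_snd))
  · refine ⟨2, C * ((d : ℝ) + 1) ^ 4, by positivity, fun v w => (h r hr e V hV v w).trans ?_⟩
    have hVi : V ^ (-1 : ℝ) ≤ 1 := Real.rpow_le_one_of_one_le_of_nonpos hV (by norm_num)
    have h3 := pow_le_pow_left₀ (jb_pos v).le (jb_le_w v) 2
    have h4 := pow_le_pow_left₀ (jb_pos w).le (jb_le_w w) 2
    have h5 : jb v ^ 2 * jb w ^ 2 ≤ (((d : ℝ) + 1) * (1 + ‖v‖)) ^ 2 * (((d : ℝ) + 1) * (1 + ‖w‖)) ^ 2 :=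
      mul_le_mul h3 h4 (by positivity) (by positivity)
    have h6 : C * V ^ (-1 : ℝ) ≤ C := by
      calc C * V ^ (-1 : ℝ) ≤ C * 1 := mul_le_mul_of_nonneg_left hVi hC
        _ = C := mul_one _
    calc C * V ^ (-1 : ℝ) * (jb v ^ 2 * jb w ^ 2) ≤
          C * ((((d : ℝ) + 1) * (1 + ‖v‖)) ^ 2 * (((d : ℝ) + 1) * (1 + ‖w‖)) ^ 2) :=
          mul_le_mul h6 h5 (by positivity) hC
      _ = C * ((d : ℝ) + 1) ^ 4 * ((1 + ‖v‖) ^ 2 * (1 + ‖w‖) ^ 2) := by ring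

end Pool.Agent.H71.PY
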