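import Pool.Agent.H71.PY.ThD
import Pool.Agent.H15.G1.Defs
import Pool.Agent.H71.PX.SmA

/-!
# Module Th2 (PX/ThM2 with `T2R`, `CuspT` of H15/G1/Defs): constant independent of `v`, `V` and `r`

-/

set_option autoImplicit false

open MeasureTheory Set Filter Topology Pool.Agent.H25.Kin Pool.Agent.H48.PL Pool.Agent.H48.PI
open Pool.Agent.H25.PT Pool.Agent.H48.PW Pool.Agent.H15.G1
open Pool.Agent.H71.PX

namespace Pool.Agent.H71.PY

variable {d : ℕ} {a m κ ε r : ℝ}

/-- Lipschitz and bounded, hence Hoelder of every order -/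
private lemma thm2_S (E : EY a m κ) {V : ℝ} (hV : 1 ≤ V) (v w w' : Vec d) {p : ℝ} (hp : 0 ≤ p) (hp1 : p ≤ 1) :
    |Sm m V (jb v) (jb w) - Sm m V (jb v) (jb w')| ≤
      6 * (om m V (max (jb w) (jb w')) * len (w - w') ^ p) := by
  obtain ⟨f1, f2, -, -, -, -, -, -, -, -⟩ := E.facts
  have hj := one_le_jb v
  have hk := one_le_jb w
  have hk' := one_le_jb w'
  have hr := len_nonneg (w - w')
  have hmx : 1 ≤ max (jb w) (jb w') := hk.trans (le_max_left _ _)
  have hO : 0 ≤ om m V (max (jb w) (jb w')) := om_nonneg (by linarith) (by linarith)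
  rcases le_or_gt (len (w - w')) 1 with h1 | h1
  · have h2 := Sm_lip f1.le f2.le hV hj hk hk'
    have h3 : |jb w - jb w'| / jb v ≤ len (w - w') := by
      rw [div_le_iff₀ (by linarith)]
      calc |jb w - jb w'| ≤ len (w - w') := jb_lip w w'
        _ = len (w - w') * 1 := (mul_one _).symm
        _ ≤ len (w - w') * jb v := mul_le_mul_of_nonneg_left hj hr
    have h4 : len (w - w') ≤ len (w - w') ^ p := by
      rcases hr.eq_or_lt with h5 | h5
      · rw [← h5]
        exact Real.rpow_nonneg le_rfl _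
      · calc len (w - w') = len (w - w') ^ (1 : ℝ) := (Real.rpow_one _).symm
          _ ≤ len (w - w') ^ p := Real.rpow_le_rpow_of_exponent_ge h5 h1 hp1
    have h5 : om m V (min (jb v) (max (jb w) (jb w'))) ≤ om m V (max (jb w) (jb w')) :=
      om_mono f2.le (by linarith) (le_min (by linarith) (by linarith)) (min_le_right _ _)
    refine h2.trans (mul_le_mul_of_nonneg_left ?_ (by norm_num))
    exact mul_le_mul h5 (h3.trans h4) (div_nonneg (abs_nonneg _) (by linarith)) hO
  · have h2 : ∀ x : ℝ, 1 ≤ x → x ≤ max (jb w) (jb w') → Sm m V (jb v) x ≤ om m V (max (jb w) (jb w')) := by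
      intro x hx hxm
      exact (Sm_le hV hj hx).trans (om_mono f2.le (by linarith) (le_min (by linarith) (by linarith))
        ((min_le_right _ _).trans hxm))
    have h3 := h2 _ hk (le_max_left _ _)
    have h4 := h2 _ hk' (le_max_right _ _)
    have h5 := Sm_nonneg (m := m) hV hj hk
    have h6 := Sm_nonneg (m := m) hV hj hk'
    have h7 : 1 ≤ len (w - w') ^ p := Real.one_le_rpow h1.le hp
    have h8 : om m V (max (jb w) (jb w')) ≤ om m V (max (jb w) (jb w')) * len (w - w') ^ p :=
      le_mul_of_one_le_right hO h7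
    rw [abs_le]
    constructor <;> linarith

private lemma thm2_main (E : EY a m κ) {V : ℝ} (hV : 1 ≤ V) {C : ℝ} (e : Fin d)
    (hC : ∀ U : Vec d, |N2R e a m κ ε r U| ≤ C) (v w w' : Vec d) {p X : ℝ} (hp : 0 ≤ p) (hp1 : p ≤ 1)
    (hX : |N2R e a m κ ε r (v - w) - N2R e a m κ ε r (v - w')| ≤ X) :
    |T2R e a m κ ε r V v w - T2R e a m κ ε r V v w'| ≤ om m V (max (jb w) (jb w')) * X +
      6 * C * (om m V (max (jb w) (jb w')) * len (w - w') ^ p) := by
  obtain ⟨f1, f2, -, -, -, -, -, -, -, -⟩ := E.facts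
  have hj := one_le_jb v
  have hk' := one_le_jb w'
  have hO : Sm m V (jb v) (jb w') ≤ om m V (max (jb w) (jb w')) :=
    (Sm_le hV hj hk').trans (om_mono f2.le (by linarith) (le_min (by linarith) (by linarith))
      ((min_le_right _ _).trans (le_max_right _ _)))
  have hS0 := Sm_nonneg (m := m) hV hj hk'
  have hsplit : T2R e a m κ ε r V v w - T2R e a m κ ε r V v w' =
      Sm m V (jb v) (jb w') * (N2R e a m κ ε r (v - w) - N2R e a m κ ε r (v - w')) +
      (Sm m V (jb v) (jb w) - Sm m V (jb v) (jb w')) * N2R e a m κ ε r (v - w) := by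
    unfold T2R
    ring
  have hS := thm2_S E hV v w w' hp hp1
  have h1 : |Sm m V (jb v) (jb w') * (N2R e a m κ ε r (v - w) - N2R e a m κ ε r (v - w'))| ≤
      om m V (max (jb w) (jb w')) * X := by
    rw [abs_mul, abs_of_nonneg hS0]
    exact mul_le_mul hO hX (abs_nonneg _) (hS0.trans hO)
  have h2 : |(Sm m V (jb v) (jb w) - Sm m V (jb v) (jb w')) * N2R e a m κ ε r (v - w)| ≤
      6 * C * (om m V (max (jb w) (jb w')) * len (w - w') ^ p) := by
    rw [abs_mul]
    calc |Sm m V (jb v) (jb w) - Sm m V (jb v) (jb w')| * |N2R e a m κ ε r (v - w)|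
        ≤ (6 * (om m V (max (jb w) (jb w')) * len (w - w') ^ p)) * C :=
          mul_le_mul hS (hC _) (abs_nonneg _) ((abs_nonneg _).trans hS)
      _ = 6 * C * (om m V (max (jb w) (jb w')) * len (w - w') ^ p) := by ring
  rw [hsplit]
  exact (abs_add_le _ _).trans (add_le_add h1 h2)

private lemma thm2_sub (v w w' : Vec d) : len (v - w - (v - w')) = len (w - w') := by
  have : v - w - (v - w') = -(w - w') := by abel
  rw [this, len_neg]

private lemma thm2_cont (E : EY a m κ) (hε : 0 < ε) (hr : 0 < r) (e : Fin d) (V : ℝ) (v : Vec d) :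
    Continuous fun w => T2R e a m κ ε r V v w := by
  have h1 : Continuous fun w : Vec d => Sm m V (jb v) (jb w) := by
    have h0 := Sm_cont (m := m) E.facts.2.1.le (d := d) V
    have h2 : Continuous fun w : Vec d => ((v, w) : Vec d × Vec d) :=
      continuous_const.prodMk continuous_id
    have h := h0.comp h2
    exact h
  have h2 : Continuous fun w : Vec d => v - w := continuous_const.sub continuous_id
  have h3 : Continuous fun w : Vec d => ThR e a m κ ε r (v - w) := by
    have h0 := ThR_cont (d := d) (m := m) (κ := κ) E.ha hε hr e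
    have h := h0.comp h2
    exact h
  have h4 : Continuous cu :=
    continuous_const.max (continuous_const.min (continuous_const.sub continuous_id))
  have h5 : Continuous fun w : Vec d => cu (len (v - w)) := h4.comp (continuous_len.comp h2)
  exact h1.mul (h5.mul h3)

/-- `T2R(v,·)` is a cusp test function, uniformly in `r` -/
theorem T2R_cusp (E : EY a m κ) (hε : 0 < ε) {τ : ℝ} (hτ : a ≤ τ) (hτ1 : τ ≤ 1) :
    ∃ A : ℝ, 0 ≤ A ∧ ∀ r : ℝ, 0 < r → ∀ (e : Fin d) (V : ℝ), 1 ≤ V → ∀ v : Vec d,
      CuspT τ a m v V A fun w => T2R e a m κ ε r V v w := by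
  obtain ⟨C, hC, c0⟩ := N2R_all (d := d) E hε
  obtain ⟨f1, f2, f3, f4, -, -, -, -, -, -⟩ := E.facts
  have ha := E.ha
  refine ⟨7 * C, by positivity, fun r hr e V hV v =>
    ⟨thm2_cont E hε hr e V v, fun w w' => ?_, fun w w' hw => ?_⟩⟩
  · obtain ⟨c1, c2, c3⟩ := c0 r hr
    have h1 := c2 e (v - w) (v - w')
    rw [thm2_sub] at h1
    have h2 := thm2_main E hV e (c1 e) v w w' ha f3.le h1
    refine h2.trans (le_of_eq ?_)
    ring
  · obtain ⟨c1, c2, c3⟩ := c0 r hr
    have hU : v - w ≠ 0 := sub_ne_zero.2 (Ne.symm hw)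
    have h1 := c3 τ hτ hτ1 e (v - w) (v - w') hU
    rw [thm2_sub, len_comm v w] at h1
    have h2 := thm2_main E hV e (c1 e) v w w' (ha.trans hτ) hτ1 h1
    have hO : 0 ≤ om m V (max (jb w) (jb w')) :=
      om_nonneg (by linarith) (by linarith [one_le_jb w, le_max_left (jb w) (jb w')])
    have hr : 0 ≤ len (w - w') ^ τ := Real.rpow_nonneg (len_nonneg _) _
    have hl : 0 ≤ len (w - v) ^ (a - τ) := Real.rpow_nonneg (len_nonneg _) _
    have h3 : len (w - w') ^ τ ≤ len (w - w') ^ τ * (1 + len (w - v) ^ (a - τ)) :=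
      le_mul_of_one_le_right hr (by linarith)
    have h4 : 6 * C * (om m V (max (jb w) (jb w')) * len (w - w') ^ τ) ≤
        6 * C * (om m V (max (jb w) (jb w')) *
          (len (w - w') ^ τ * (1 + len (w - v) ^ (a - τ)))) :=
      mul_le_mul_of_nonneg_left (mul_le_mul_of_nonneg_left h3 hO) (by positivity)
    refine h2.trans ((add_le_add le_rfl h4).trans (le_of_eq ?_))
    ring

end Pool.Agent.H71.PY
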