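import Pool.Agent.H71.PY.Th1
import Pool.Agent.H71.PY.Th2
import Pool.Agent.H71.PY.TVR
import Pool.Agent.H71.PX.HwM
import Pool.Agent.H87.PE.Tra

/-!
# Module FibY: the collision term of the pair functional, on a fiber (PX/FibM with `TVR`; the error of the cusp test functions is the hypothesis `ErrC`)

-/

set_option autoImplicit false

open MeasureTheory Set Filter Topology Pool.Agent.H25.Kin Pool.Agent.H82.BK Pool.Agent.H82.CM
open Pool.Agent.H48.PL Pool.Agent.H48.PI Pool.Agent.H25.PT Pool.Agent.H48.PW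
open Pool.Agent.H15.AV (UNice gau)
open Pool.Agent.H71.PX Pool.Agent.H15.G1

namespace Pool.Agent.H71.PY

variable {d : ℕ} {s a m C Ca cb : ℝ} {b : ℝ → ℝ}

/-- the conclusion of `err_cg` (H15/G1/Blk) -/
def ErrC (d : ℕ) (a m τ : ℝ) (b : ℝ → ℝ) : Prop := ∀ A₁ : ℝ, 0 ≤ A₁ →
  ∃ K : ℝ, 0 ≤ K ∧ ∀ R₁ : ℝ, 1 ≤ R₁ → ∃ K₁ : ℝ, 0 ≤ K₁ ∧ ∀ ε : ℝ, 0 < ε → ε ≤ 1 →
    ∀ (Cl : ℕ → ℝ), ∀ η > 0, ∃ δ₀ > 0, ∀ δ ∈ Ioc (0 : ℝ) δ₀, ∀ g : Vec d → ℝ, UNice Cl g →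
    ∀ (v₀ : Vec d) (V₁ : ℝ), 1 ≤ V₁ → ∀ ψ : Vec d → ℝ, CuspT τ a m v₀ V₁ A₁ ψ →
    |∫ w, boltzQ (1 + a) b g w * ψ w| ≤ K₁ / ε * Dn (1 + a) b δ g +
      ε * K₁ * om m V₁ R₁ * XT a m 1 g + K * XT a m (max V₁ R₁) g + η

private lemma fm_cu (x : ℝ) : 0 ≤ cu x ∧ cu x ≤ 1 :=
  ⟨le_max_left _ _, max_le zero_le_one (min_le_left _ _)⟩

private lemma fm_cu_cont : Continuous cu := by
  unfold cu
  fun_prop

private lemma fm_T2 (e : Fin d) (κ ε r V : ℝ) (v w : Vec d) :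
    T2R e a m κ ε r V v w = cu (len (v - w)) * TVR e a m κ ε r V v w := by
  unfold T2R TVR N2R
  ring

private lemma fm_T1 (e : Fin d) (κ ε : ℝ) {r : ℝ} (hr : 0 < r) (hr1 : r ≤ 1) (V : ℝ) (v w : Vec d) :
    T1 e a m κ ε V v w = (1 - cu (len (v - w))) * TVR e a m κ ε r V v w := by
  have h1 := TVR_split e a m κ ε hr hr1 V v w
  rw [fm_T2] at h1
  linarith

/-- the collision term times a continuous function of polynomial growth is integrable -/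
private lemma fm_int {γ : ℝ} (H : Hyp d γ s b C Ca) {g : Vec d → ℝ} (hg : Nice g) {ψ : Vec d → ℝ}
    (hψm : Measurable ψ) {N : ℕ} {B : ℝ} (_ : 0 ≤ B) (hψ : ∀ w, |ψ w| ≤ B * (1 + ‖w‖) ^ N) :
    Integrable fun w => boltzQ γ b g w * ψ w := by
  obtain ⟨A, hA, hAd⟩ := boltzQ_decay H hg (N + (d + 1))
  have hQm : Measurable fun v => boltzQ γ b g v := by
    refine measurable_of_tendsto_metrizable' (𝓝[>] (0 : ℝ)) (f := fun ε v => boltzCut γ b ε g v)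
      (fun ε => (boltzCut_meas H.bm hg.cont ε).measurable) ?_
    rw [tendsto_pi_nhds]
    exact fun v => boltz_tendsto H hg v
  refine (integrable_wt.const_mul (A * B)).mono' (hQm.mul hψm).aestronglyMeasurable
    (Eventually.of_forall fun w => ?_)
  rw [norm_mul, Real.norm_eq_abs, Real.norm_eq_abs]
  have hw := w_pos w
  calc |boltzQ γ b g w| * |ψ w| ≤ (A * ((1 + ‖w‖) ^ (N + (d + 1)))⁻¹) * (B * (1 + ‖w‖) ^ N) :=
        mul_le_mul (hAd w) (hψ w) (abs_nonneg _) (by positivity)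
    _ = A * B * wt d w := by
        unfold wt
        rw [pow_add]
        field_simp

private lemma fm_int2 {γ : ℝ} (H : Hyp d γ s b C Ca) {g : Vec d → ℝ} (hg : Nice g)
    {Φ : Vec d → Vec d → ℝ} (hΦ : PGW Φ) {c : ℝ → ℝ} (hc : Continuous c) (hc1 : ∀ x, |c x| ≤ 1)
    (v : Vec d) : Integrable fun w => boltzQ γ b g w * (c (len (v - w)) * Φ v w) := by
  obtain ⟨N, B, hB, hle⟩ := hΦ.le
  have h5 : Continuous fun w : Vec d => ((v, w) : Vec d × Vec d) := by fun_prop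
  have hTc : Continuous fun w : Vec d => Φ v w := hΦ.cont.comp h5
  have hcc : Continuous fun w : Vec d => c (len (v - w)) :=
    hc.comp (continuous_len.comp (continuous_const.sub continuous_id))
  have hB' : 0 ≤ B * (1 + ‖v‖) ^ N := by
    have := w_pos v
    positivity
  refine fm_int H hg (hcc.mul hTc).measurable hB' (N := N) fun w => ?_
  rw [abs_mul]
  calc |c (len (v - w))| * |Φ v w| ≤ 1 * |Φ v w| :=
        mul_le_mul_of_nonneg_right (hc1 _) (abs_nonneg _)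
    _ ≤ B * (1 + ‖v‖) ^ N * (1 + ‖w‖) ^ N := by
        rw [one_mul, mul_assoc]
        exact hle v w

private lemma fm_om (hm1 : m ≤ 1) {V : ℝ} (hV : 1 ≤ V) : om m V 1 ≤ V ^ (-1 : ℝ) := by
  have hV0 : 0 < V := by linarith
  unfold om
  have h1 : 1 / V ≤ 1 := by rw [div_le_one hV0]; exact hV
  rw [min_eq_right h1, Real.rpow_neg hV0.le, Real.rpow_one]
  calc (1 / V) ^ (4 - m) ≤ (1 / V) ^ (1 : ℝ) :=
        Real.rpow_le_rpow_of_exponent_ge (by positivity) h1 (by linarith)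
    _ = V⁻¹ := by rw [Real.rpow_one, one_div]

private lemma fm_fin {Kh C₁ K₁ K j YV Y1 D η W I1 I2 I : ℝ} (hKh : 0 ≤ Kh) (hC₁ : 0 ≤ C₁) (hK₁ : 0 ≤ K₁)
    (hK : 0 ≤ K) (hj : 1 ≤ j) (hYV : 0 ≤ YV) (hY1 : 0 ≤ Y1) (hD : -(η / 2) ≤ D) (hη : 0 < η)
    (hW : 0 ≤ W) (hI : |I| ≤ I1 + I2) (h1 : I1 ≤ Kh * (C₁ * j * YV))
    (h2 : I2 ≤ K₁ * D + K₁ * (W * Y1) + K * YV + η / 2) :
    |I| ≤ (Kh * C₁ + K₁ + K + 1) * (j * (YV + D + W * Y1 + η)) := by
  have hWY : 0 ≤ W * Y1 := mul_nonneg hW hY1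
  have hj0 : 0 ≤ j - 1 := by linarith
  have hZ : 0 ≤ YV + D + W * Y1 + η := by linarith
  have hKC : 0 ≤ Kh * C₁ := mul_nonneg hKh hC₁
  have e1 : Kh * C₁ * j * YV ≤ Kh * C₁ * j * (YV + D + W * Y1 + η) :=
    mul_le_mul_of_nonneg_left (by linarith) (by positivity)
  have e2 : K₁ * D + K₁ * (W * Y1) ≤ K₁ * (YV + D + W * Y1 + η) := by
    have : K₁ * (D + W * Y1) ≤ K₁ * (YV + D + W * Y1 + η) :=
      mul_le_mul_of_nonneg_left (by linarith) hK₁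
    linarith
  have e3 : K * YV ≤ K * (YV + D + W * Y1 + η) := mul_le_mul_of_nonneg_left (by linarith) hK
  have e4 : η / 2 ≤ 1 * (YV + D + W * Y1 + η) := by linarith
  have e5 : (K₁ + K + 1) * (YV + D + W * Y1 + η) ≤ (K₁ + K + 1) * j * (YV + D + W * Y1 + η) := by
    have : 0 ≤ (K₁ + K + 1) * (YV + D + W * Y1 + η) * (j - 1) :=
      mul_nonneg (mul_nonneg (by positivity) hZ) hj0
    nlinarith
  have e6 : Kh * (C₁ * j * YV) = Kh * C₁ * j * YV := by ring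
  calc |I| ≤ Kh * C₁ * j * (YV + D + W * Y1 + η) +
        (K₁ + K + 1) * j * (YV + D + W * Y1 + η) := by linarith
    _ = _ := by ring

theorem fibY (HL : HypL d (1 + a) s b C Ca cb) (h1 : 2 * s < m) (E : EY a m (kpa s m)) {τ : ℝ}
    (hτ : a ≤ τ) (hτ1 : τ ≤ 1) (hErr : ErrC d a m τ b) (e : Fin d) {ε : ℝ} (hε : 0 < ε) :
    ∃ K : ℝ, 0 ≤ K ∧ ∀ r : ℝ, 0 < r → r ≤ 1 → ∀ Cl : ℕ → ℝ, ∀ η > 0, ∃ δ₀ > 0, ∀ δ ∈ Ioc (0 : ℝ) δ₀,
      ∀ g : Vec d → ℝ, UNice Cl g → ∀ V : ℝ, 1 ≤ V →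
      0 ≤ YW a m V g univ + Dn (1 + a) b δ g + V ^ (-1 : ℝ) * YW a m 1 g univ + η ∧
      ∀ v : Vec d, |∫ w, TVR e a m (kpa s m) ε r V v w * boltzQ (1 + a) b g w| ≤
        K * (jb v ^ qx a m (kpa s m) *
          (YW a m V g univ + Dn (1 + a) b δ g + V ^ (-1 : ℝ) * YW a m 1 g univ + η)) := by
  obtain ⟨hm0, hm1, ha1, ham, -, -, -, hq0, -, -⟩ := E.facts
  have ha0 := E.ha
  have hs := HL.H.hs
  obtain ⟨Kh, hKh, hk⟩ := hwM HL ha0 ha1.le h1 hm1.le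
  obtain ⟨C₁, hC₁, hT1⟩ := T1_hol (d := d) E hε
  have hjq : ∀ v : Vec d, 1 ≤ jb v ^ qx a m (kpa s m) := fun v => Real.one_le_rpow (one_le_jb v) hq0
  obtain ⟨A, hA, hcusp⟩ := T2R_cusp (d := d) E hε hτ hτ1
  obtain ⟨K, hK, hE⟩ := hErr A hA
  obtain ⟨K₁, hK₁, hE1⟩ := hE 1 le_rfl
  refine ⟨Kh * C₁ + K₁ + K + 1, by positivity, fun r hr hr1 Cl η hη => ?_⟩
  -- the split
  have hsplit : ∀ {g : Vec d → ℝ}, Nice g → ∀ V : ℝ, 1 ≤ V → ∀ v : Vec d,
      |∫ w, TVR e a m (kpa s m) ε r V v w * boltzQ (1 + a) b g w| ≤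
        |∫ w, boltzQ (1 + a) b g w * T1 e a m (kpa s m) ε V v w| +
          |∫ w, boltzQ (1 + a) b g w * T2R e a m (kpa s m) ε r V v w| := by
    intro g hg V hV v
    have hP := TVR_PGW (d := d) E hε hr e hV
    have i1 : Integrable fun w => boltzQ (1 + a) b g w * T1 e a m (kpa s m) ε V v w := by
      have h5 := fm_int2 HL.H hg hP (c := fun x => 1 - cu x) (continuous_const.sub fm_cu_cont)
        (fun x => by
          obtain ⟨c0, c1⟩ := fm_cu x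
          rw [abs_le]
          constructor <;> linarith) v
      refine h5.congr (Eventually.of_forall fun w => ?_)
      simp only [fm_T1 e (kpa s m) ε hr hr1 V v w]
    have i2 : Integrable fun w => boltzQ (1 + a) b g w * T2R e a m (kpa s m) ε r V v w := by
      have h5 := fm_int2 HL.H hg hP (c := cu) fm_cu_cont
        (fun x => by
          obtain ⟨c0, c1⟩ := fm_cu x
          rw [abs_le]
          constructor <;> linarith) v
      refine h5.congr (Eventually.of_forall fun w => ?_)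
      simp only [fm_T2]
    have h4 : ∫ w, TVR e a m (kpa s m) ε r V v w * boltzQ (1 + a) b g w =
        (∫ w, boltzQ (1 + a) b g w * T1 e a m (kpa s m) ε V v w) +
          ∫ w, boltzQ (1 + a) b g w * T2R e a m (kpa s m) ε r V v w := by
      rw [← integral_add i1 i2]
      refine integral_congr_ae (Eventually.of_forall fun w => ?_)
      simp only [TVR_split e a m (kpa s m) ε hr hr1 V v w]
      ring
    rw [h4]
    exact abs_add_le _ _
  obtain ⟨δa, hδa, hDa⟩ := Pool.Agent.H87.PE.Dn_ge HL.H Cl (half_pos hη)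
  obtain ⟨δb, hδb, hDb⟩ := hE1 1 one_pos le_rfl Cl (η / 2) (half_pos hη)
  refine ⟨min δa δb, lt_min hδa hδb, fun δ hδ g hg V hV => ?_⟩
  have hD := hDa δ ⟨hδ.1, hδ.2.trans (min_le_left _ _)⟩ g hg
  have hV0 : 0 < V := by linarith
  have hYV := YW_nonneg (a := a) (m := m) hV hg.nonneg univ
  have hY1 := YW_nonneg (a := a) (m := m) le_rfl hg.nonneg univ
  have hVm : 0 ≤ V ^ (-1 : ℝ) := Real.rpow_nonneg hV0.le _
  have hWY : 0 ≤ V ^ (-1 : ℝ) * YW a m 1 g univ := mul_nonneg hVm hY1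
  refine ⟨by linarith, fun v => ?_⟩
  have hj0 : 0 ≤ jb v ^ qx a m (kpa s m) := zero_le_one.trans (hjq v)
  have b1 := hk V hV (fun w => T1 e a m (kpa s m) ε V v w) (C₁ * jb v ^ qx a m (kpa s m))
    (mul_nonneg hC₁ hj0) (fun w w' => hT1 e V hV v w w') g hg.nice hg.nonneg
  have b2 := hDb δ ⟨hδ.1, hδ.2.trans (min_le_right _ _)⟩ g hg v V hV
    (fun w => T2R e a m (kpa s m) ε r V v w) (hcusp r hr e V hV v)
  rw [max_eq_left hV, XT_eq, XT_eq, div_one, one_mul] at b2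
  have b3 : K₁ * om m V 1 * YW a m 1 g univ ≤ K₁ * (V ^ (-1 : ℝ) * YW a m 1 g univ) := by
    rw [mul_assoc]
    exact mul_le_mul_of_nonneg_left (mul_le_mul_of_nonneg_right (fm_om hm1.le hV) hY1) hK₁
  exact fm_fin hKh hC₁ hK₁ hK (hjq v) hYV hY1 hD hη hVm (hsplit hg.nice V hV v) b1 (by linarith)

end Pool.Agent.H71.PY
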