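import Pool.Agent.H71.PY.ClosY
import Pool.Agent.H85.UP.Defs

/-!
# Blocks X and T at `0 ≤ a`: the final statement (`tail_g` of H15/G1/Blk.lean), with the error of the cusp test functions (`err_cg`) as hypothesis
-/

set_option autoImplicit false

open MeasureTheory Set Filter Topology Pool.Agent.H25.Kin Pool.Agent.H82.BK Pool.Agent.H82.CM
open Pool.Agent.H48.PL Pool.Agent.H48.PI Pool.Agent.H48.PW Pool.Agent.H71.PX Pool.Agent.H85.UP Pool.Agent.H15.G1

namespace Pool.Agent.H71.PY

variable {d : ℕ} {s a m C Ca cb : ℝ} {b : ℝ → ℝ}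

/-- the tail property from the error estimate of the cusp test functions (`err_cg` of H15/G1/Blk with some `τ`, `a ≤ τ ≤ 1`) -/
theorem tail_of (HL : HypL d (1 + a) s b C Ca cb) (E : GE s a m) {τ : ℝ} (hτ : a ≤ τ) (hτ1 : τ ≤ 1)
    (hErr : ErrC d a m τ b) : TailR d a m b := by
  intro e M
  have hs := E.hs
  have h1 := E.hm
  have EE : EY a m (kpa s m) := by
    refine ⟨E.ha, by linarith, ?_, E.hmQ⟩
    unfold kpa
    rw [one_le_div (by positivity)]
    exact h1.le
  obtain ⟨K, hK, h⟩ := tail_y HL h1 EE hτ hτ1 hErr e M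
  refine ⟨1, K, one_pos, hK, fun T f hf hpl h0 V hV t₀ t ht₀ htt htT => ?_⟩
  simp only [XT_eq]
  exact h T f hf hpl h0 V hV t₀ t ht₀ htt htT

end Pool.Agent.H71.PY
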