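import Pool.Agent.H71.PY.Defs
import Pool.Agent.H71.PX.Th0A

/-!
# Module ThA: elementary bounds of `Th0` and `ThR` for `0 ≤ a` (PX/Th0A: `0 < a`)
-/

set_option autoImplicit false

open MeasureTheory Set Filter Topology Pool.Agent.H25.Kin Pool.Agent.H48.PL Pool.Agent.H48.PI
open Pool.Agent.H71.PX

namespace Pool.Agent.H71.PY

variable {d : ℕ} {a m κ ε r : ℝ}

lemma Th0_zero (ha : 0 ≤ a) (e : Fin d) : Th0 e a m κ ε 0 = 0 := by
  unfold Th0
  rw [len_zero, Real.zero_rpow (by linarith), zero_mul, zero_mul]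

private lemma quot_abs {x y : ℝ} (hy : 0 < y) : |x / (x ^ 2 + y ^ 2)| ≤ 1 / (2 * y) := by
  have hD : 0 < x ^ 2 + y ^ 2 := by positivity
  rw [abs_div, abs_of_pos hD, div_le_div_iff₀ hD (by positivity)]
  have h := sq_nonneg (|x| - y)
  have h2 := sq_abs x
  nlinarith

lemma Th0_abs (ha : 0 ≤ a) (hε : 0 < ε) (e : Fin d) (V : Vec d) :
    |Th0 e a m κ ε V| ≤ 1 / (2 * ε) * (len V ^ a * jb V ^ (m + κ)) := by
  by_cases hV : V = 0
  · subst hV
    rw [Th0_zero ha, abs_zero]
    have h1 := Real.rpow_nonneg (len_nonneg (0 : Vec d)) a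
    have h2 := Real.rpow_nonneg (jb_pos (0 : Vec d)).le (m + κ)
    positivity
  · have hL := len_pos hV
    have hJ := jb_pos V
    have hy : 0 < ε * jb V ^ (-κ) * len V := by
      have := Real.rpow_pos_of_pos hJ (-κ)
      positivity
    have h1 := quot_abs (x := V e) hy
    have hA : 0 ≤ len V ^ (1 + a) * jb V ^ m :=
      mul_nonneg (Real.rpow_nonneg hL.le _) (Real.rpow_nonneg hJ.le _)
    unfold Th0
    rw [abs_mul, abs_of_nonneg hA]
    refine (mul_le_mul_of_nonneg_left h1 hA).trans (le_of_eq ?_)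
    have e1 : len V ^ (1 + a) = len V * len V ^ a := by
      rw [Real.rpow_add hL, Real.rpow_one]
    have e2 : jb V ^ (m + κ) = jb V ^ m * jb V ^ κ := Real.rpow_add hJ m κ
    have e3 : jb V ^ (-κ) = (jb V ^ κ)⁻¹ := Real.rpow_neg hJ.le κ
    have hJκ : 0 < jb V ^ κ := Real.rpow_pos_of_pos hJ κ
    rw [e1, e2, e3]
    field_simp

lemma VTh0_low (ha : 0 ≤ a) (hε : 0 < ε) (e : Fin d) {V : Vec d}
    (h : ε * jb V ^ (-κ) * len V ≤ |V e|) :
    1 / 2 * (len V ^ (1 + a) * jb V ^ m) ≤ V e * Th0 e a m κ ε V := by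
  by_cases hV : V = 0
  · subst hV
    rw [len_zero, Real.zero_rpow (by linarith), zero_mul, mul_zero]
    exact VTh0_nonneg e 0
  · have hL := len_pos hV
    have hJ := jb_pos V
    have hy : 0 < ε * jb V ^ (-κ) * len V := by
      have := Real.rpow_pos_of_pos hJ (-κ)
      positivity
    have hA : 0 ≤ len V ^ (1 + a) * jb V ^ m :=
      mul_nonneg (Real.rpow_nonneg hL.le _) (Real.rpow_nonneg hJ.le _)
    have e1 : V e * Th0 e a m κ ε V = len V ^ (1 + a) * jb V ^ m *
      (V e ^ 2 / (V e ^ 2 + (ε * jb V ^ (-κ) * len V) ^ 2)) := by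
      unfold Th0
      ring
    rw [e1, mul_comm]
    refine mul_le_mul_of_nonneg_left ?_ hA
    rw [div_le_div_iff₀ (by norm_num) (by positivity)]
    have h2 : (ε * jb V ^ (-κ) * len V) ^ 2 ≤ V e ^ 2 := by
      rw [← sq_abs (V e)]
      exact pow_le_pow_left₀ hy.le h 2
    linarith

lemma cut_nonneg (hr : 0 < r) (V : Vec d) : 0 ≤ min 1 (len V / r) :=
  le_min zero_le_one (div_nonneg (len_nonneg V) hr.le)

lemma ThR_neg (e : Fin d) (V : Vec d) : ThR e a m κ ε r (-V) = -ThR e a m κ ε r V := by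
  unfold ThR
  rw [len_neg, Th0_neg, mul_neg]

lemma ThR_abs_le (hr : 0 < r) (e : Fin d) (V : Vec d) : |ThR e a m κ ε r V| ≤ |Th0 e a m κ ε V| := by
  unfold ThR
  rw [abs_mul, abs_of_nonneg (cut_nonneg hr V)]
  exact mul_le_of_le_one_left (abs_nonneg _) (min_le_left _ _)

lemma VThR_nonneg (hr : 0 < r) (e : Fin d) (V : Vec d) : 0 ≤ V e * ThR e a m κ ε r V := by
  have h := mul_nonneg (cut_nonneg hr V) (VTh0_nonneg (a := a) (m := m) (κ := κ) (ε := ε) e V)
  unfold ThR
  calc (0 : ℝ) ≤ min 1 (len V / r) * (V e * Th0 e a m κ ε V) := h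
    _ = V e * (min 1 (len V / r) * Th0 e a m κ ε V) := by ring

lemma VThR_le (e : Fin d) (V : Vec d) :
    V e * ThR e a m κ ε r V ≤ len V ^ (1 + a) * jb V ^ m := by
  have h0 := VTh0_nonneg (a := a) (m := m) (κ := κ) (ε := ε) e V
  have h1 := VTh0_le (a := a) (m := m) (κ := κ) (ε := ε) e V
  have h2 := mul_le_of_le_one_left h0 (min_le_left 1 (len V / r))
  unfold ThR
  calc V e * (min 1 (len V / r) * Th0 e a m κ ε V)
      = min 1 (len V / r) * (V e * Th0 e a m κ ε V) := by ring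
    _ ≤ _ := h2.trans h1

/-- `ThR` is continuous -/
theorem ThR_cont (ha : 0 ≤ a) (hε : 0 < ε) (hr : 0 < r) (e : Fin d) : Continuous (ThR e a m κ ε r) := by
  rw [continuous_iff_continuousAt]
  intro V
  have cL : ContinuousAt (fun V : Vec d => len V) V := continuous_len.continuousAt
  have cJ : ContinuousAt (fun V : Vec d => jb V) V := jb_cont.continuousAt
  have cE : ContinuousAt (fun V : Vec d => V e) V := (continuous_apply e).continuousAt
  have cM : ContinuousAt (fun V : Vec d => min 1 (len V / r)) V :=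
    (continuous_const.min (continuous_len.div_const r)).continuousAt
  by_cases hV : V = 0
  · subst hV
    unfold ContinuousAt
    have h0 : ThR e a m κ ε r 0 = 0 := by
      unfold ThR
      rw [Th0_zero ha, mul_zero]
    rw [h0]
    have hb : Tendsto (fun V : Vec d => min 1 (len V / r) * (1 / (2 * ε) * (len V ^ a * jb V ^ (m + κ))))
        (𝓝 0) (𝓝 0) := by
      have c : ContinuousAt (fun V : Vec d =>
          min 1 (len V / r) * (1 / (2 * ε) * (len V ^ a * jb V ^ (m + κ)))) 0 :=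
        cM.mul (continuousAt_const.mul ((cL.rpow_const (Or.inr ha)).mul
          (cJ.rpow_const (Or.inl (jb_pos _).ne'))))
      unfold ContinuousAt at c
      have e0 : min 1 (len (0 : Vec d) / r) *
          (1 / (2 * ε) * (len (0 : Vec d) ^ a * jb (0 : Vec d) ^ (m + κ))) = 0 := by
        rw [len_zero, zero_div, min_eq_right zero_le_one, zero_mul]
      exact e0 ▸ c
    refine squeeze_zero_norm (fun V => ?_) hb
    rw [Real.norm_eq_abs]
    unfold ThR
    rw [abs_mul, abs_of_nonneg (cut_nonneg hr V)]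
    exact mul_le_mul_of_nonneg_left (Th0_abs ha hε e V) (cut_nonneg hr V)
  · have hL := len_pos hV
    have hJ := jb_pos V
    have hy : 0 < ε * jb V ^ (-κ) * len V := by
      have := Real.rpow_pos_of_pos hJ (-κ)
      positivity
    have c1 : ContinuousAt (fun V : Vec d => len V ^ (1 + a)) V := cL.rpow_const (Or.inl hL.ne')
    have c2 : ContinuousAt (fun V : Vec d => jb V ^ m) V := cJ.rpow_const (Or.inl hJ.ne')
    have c3 : ContinuousAt (fun V : Vec d => jb V ^ (-κ)) V := cJ.rpow_const (Or.inl hJ.ne')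
    have c4 : ContinuousAt (fun V : Vec d => V e ^ 2 + (ε * jb V ^ (-κ) * len V) ^ 2) V :=
      (cE.pow 2).add (((continuousAt_const.mul c3).mul cL).pow 2)
    exact cM.mul ((c1.mul c2).mul (cE.div c4 (by positivity)))

end Pool.Agent.H71.PY
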