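import Pool.Agent.H71.PY.ThA

/-!
# Module ThB (copy of PX/Th0B, `0 ≤ a`): the increments of `Th0` away from the cusp

`2|h| ≤ |V|`. If `V = 0` then `h = 0`, trivial. Let `L = len V > 0`, `L' = len (V+h)`, `J = jb V`, `J' = jb (V+h)`; `|L'-L| ≤ |h| ≤ L/2` (`len_le_add_sub`),
`|J'-J| ≤ |h| ≤ L/2 ≤ J/2` (`jb_lip`, `len_le_jb`), so `L' ∈ [L/2, 3L/2]`, `J' ∈ [J/2, 3J/2]`. `λ = ε J^(-κ)`, `λ' = ε J'^(-κ)`, `A = λL`, `A' = λ'L'`,
`D = V_e² + A²`, `D' = V'_e² + A'²`, `V' = V + h`, `W = L^(1+a) J^m`, `W' = ..`. All constants below depend on `a, m, κ, ε` only. By `rpow_diff`: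
* `|W' - W| ≤ C (|h|/L) W` (product of two powers; `|h|/J ≤ |h|/L`), and `|A' - A| ≤ C (|h|/L) A`, `A' ≥ c A` with `c = 2^(-1) (3/2)^(-κ)`, `A' ≤ C A`.
* `|V'_e/D' - V_e/D| ≤ |V'_e - V_e|/D' + |V_e| |D - D'|/(D D')`, `|V'_e - V_e| ≤ |h|`,
  `|D - D'| ≤ |h| (|V_e| + |V'_e|) + |A - A'| (A + A')`.
  `|V_e| |h| (|V_e|+|V'_e|)/(D D') ≤ |h| (1/D' + 1/(√D √D'))` (`V_e² ≤ D`, `|V_e||V'_e| ≤ √D √D'`), and
  `|V_e| |A-A'| (A+A')/(D D') ≤ C (|h|/L) |V_e| A²/(D D') ≤ C (|h|/L) A/D'` (`2|V_e| A ≤ D`).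
  With `D ≥ A²`, `D' ≥ A'² ≥ c² A²`, and `A ≤ ε L` (so `A/(L D') ≤ ε/D'`): the sum is `≤ C |h|/A² = C |h| J^(2κ)/(ε² L²)`.
* `|V'_e/D'| ≤ 1/(2A') ≤ C/A ≤ C L/A²` (`A ≤ ε L`). Hence `|Th0 V' - Th0 V| ≤ |W' - W| |V'_e/D'| + W |V'_e/D' - V_e/D| ≤ C W |h|/A² = C' |h| L^(a-1) J^(m+2κ)`.
-/

set_option autoImplicit false

open MeasureTheory Set Filter Topology Pool.Agent.H25.Kin Pool.Agent.H48.PL Pool.Agent.H48.PI
open Pool.Agent.H71.PX

namespace Pool.Agent.H71.PY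

variable {d : ℕ} {a m κ ε : ℝ}

private lemma th0b_frac {x x' A A' η c K M : ℝ} (hA : 0 < A) (hc : 0 < c) (hcA : c * A ≤ A')
    (hx : |x' - x| ≤ η) (hK : 0 ≤ K) (hd : |A' - A| ≤ K * η) (hM : A' ≤ M * A) :
    |x' / (x' ^ 2 + A' ^ 2) - x / (x ^ 2 + A ^ 2)| ≤
      (1 / (4 * c) + 1 / c ^ 2 + K * (1 + M) / (2 * c ^ 2)) * (η / A ^ 2) := by
  have hA' : 0 < A' := lt_of_lt_of_le (mul_pos hc hA) hcA
  have hη : 0 ≤ η := (abs_nonneg _).trans hx
  obtain ⟨D, hD⟩ : ∃ D : ℝ, D = x ^ 2 + A ^ 2 := ⟨_, rfl⟩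
  obtain ⟨D', hD'⟩ : ∃ D' : ℝ, D' = x' ^ 2 + A' ^ 2 := ⟨_, rfl⟩
  rw [← hD, ← hD']
  have D0 : 0 < D := by rw [hD]; positivity
  have D0' : 0 < D' := by rw [hD']; positivity
  have e : x' / D' - x / D = (x * x' * (x - x') + (x' - x) * A ^ 2 + x * (A ^ 2 - A' ^ 2)) /
      (D * D') := by
    rw [div_sub_div _ _ D0'.ne' D0.ne']
    rw [div_eq_div_iff (mul_pos D0' D0).ne' (mul_pos D0 D0').ne']
    rw [hD, hD']
    ring
  rw [e, abs_div, abs_of_pos (mul_pos D0 D0'), div_le_iff₀ (mul_pos D0 D0')]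
  have q1 : 2 * A * |x| ≤ D := by
    have h1 := sq_nonneg (A - |x|)
    have h2 : |x| ^ 2 = x ^ 2 := sq_abs x
    rw [hD]
    nlinarith
  have q1' : 2 * A' * |x'| ≤ D' := by
    have h1 := sq_nonneg (A' - |x'|)
    have h2 : |x'| ^ 2 = x' ^ 2 := sq_abs x'
    rw [hD']
    nlinarith
  have q2 : A ^ 2 ≤ D := by rw [hD]; nlinarith [sq_nonneg x]
  have q2' : c ^ 2 * A ^ 2 ≤ D' := by
    have h1 : (c * A) ^ 2 ≤ A' ^ 2 := pow_le_pow_left₀ (mul_pos hc hA).le hcA 2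
    rw [hD']
    nlinarith [sq_nonneg x']
  -- the three terms
  have t1 : |x * x' * (x - x')| ≤ 1 / (4 * c) * (η / A ^ 2) * (D * D') := by
    rw [abs_mul, abs_mul, abs_sub_comm x x']
    have h1 : (2 * A * |x|) * (2 * (c * A) * |x'|) ≤ D * D' := by
      refine mul_le_mul q1 (le_trans ?_ q1') (by positivity) D0.le
      have := mul_le_mul_of_nonneg_right hcA (abs_nonneg x')
      linarith
    have h2 : |x| * |x'| ≤ 1 / (4 * c * A ^ 2) * (D * D') := by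
      have h3 : |x| * |x'| = 1 / (4 * c * A ^ 2) * ((2 * A * |x|) * (2 * (c * A) * |x'|)) := by
        field_simp
        ring
      rw [h3]
      exact mul_le_mul_of_nonneg_left h1 (by positivity)
    have h3 := mul_le_mul h2 hx (abs_nonneg _) (by positivity)
    refine h3.trans (le_of_eq ?_)
    field_simp
  have t2 : |(x' - x) * A ^ 2| ≤ 1 / c ^ 2 * (η / A ^ 2) * (D * D') := by
    rw [abs_mul, abs_of_nonneg (sq_nonneg A)]
    have h1 : A ^ 2 * (c ^ 2 * A ^ 2) ≤ D * D' := mul_le_mul q2 q2' (by positivity) D0.le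
    have h2 : A ^ 2 ≤ 1 / (c ^ 2 * A ^ 2) * (D * D') := by
      have h3 : A ^ 2 = 1 / (c ^ 2 * A ^ 2) * (A ^ 2 * (c ^ 2 * A ^ 2)) := by
        field_simp
      calc A ^ 2 = 1 / (c ^ 2 * A ^ 2) * (A ^ 2 * (c ^ 2 * A ^ 2)) := h3
        _ ≤ _ := mul_le_mul_of_nonneg_left h1 (by positivity)
    have h3 := mul_le_mul hx h2 (by positivity) hη
    refine h3.trans (le_of_eq ?_)
    field_simp
  have t3 : |x * (A ^ 2 - A' ^ 2)| ≤ K * (1 + M) / (2 * c ^ 2) * (η / A ^ 2) * (D * D') := by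
    rw [abs_mul]
    have h1 : |A ^ 2 - A' ^ 2| ≤ K * η * ((1 + M) * A) := by
      have h2 : A ^ 2 - A' ^ 2 = -((A' - A) * (A' + A)) := by ring
      rw [h2, abs_neg, abs_mul, abs_of_pos (add_pos hA' hA)]
      refine mul_le_mul hd ?_ (add_pos hA' hA).le (mul_nonneg hK hη)
      linarith
    have M0 : 0 ≤ 1 + M := by
      have : 0 < M * A := lt_of_lt_of_le hA' hM
      have : 0 < M := (mul_pos_iff_of_pos_right hA).1 this
      linarith
    have h2 : |x| ≤ D / (2 * A) := by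
      rw [le_div_iff₀ (by positivity)]
      linarith
    have h3 := mul_le_mul h2 h1 (abs_nonneg _) (by positivity)
    refine h3.trans ?_
    have h4 : D / (2 * A) * (K * η * ((1 + M) * A)) = (K * η * (1 + M) / 2) * D := by
      field_simp
    have h5 : K * (1 + M) / (2 * c ^ 2) * (η / A ^ 2) * (D * D') =
        (K * η * (1 + M) / 2) * D * (D' / (c ^ 2 * A ^ 2)) := by
      field_simp
    rw [h4, h5]
    have h6 : 1 ≤ D' / (c ^ 2 * A ^ 2) := by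
      rw [le_div_iff₀ (by positivity)]
      linarith
    have h7 : 0 ≤ (K * η * (1 + M) / 2) * D := by positivity
    exact le_mul_of_one_le_right h7 h6
  have tt := (abs_add_le (x * x' * (x - x') + (x' - x) * A ^ 2) (x * (A ^ 2 - A' ^ 2))).trans
    (add_le_add_left (abs_add_le (x * x' * (x - x')) ((x' - x) * A ^ 2)) _)
  have e2 : (1 / (4 * c) + 1 / c ^ 2 + K * (1 + M) / (2 * c ^ 2)) * (η / A ^ 2) * (D * D') =
      1 / (4 * c) * (η / A ^ 2) * (D * D') + 1 / c ^ 2 * (η / A ^ 2) * (D * D') +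
      K * (1 + M) / (2 * c ^ 2) * (η / A ^ 2) * (D * D') := by ring
  rw [e2]
  linarith

private lemma th0b_core (ha : 0 ≤ a) (hm : 0 < m) (hκ : 1 ≤ κ) (hε : 0 < ε) :
    ∃ C : ℝ, 0 ≤ C ∧ ∀ L L' J J' η x x' : ℝ, 0 < L → 1 ≤ J → L ≤ J → 2 * η ≤ L →
      |L' - L| ≤ η → |J' - J| ≤ η → |x' - x| ≤ η →
      |L' ^ (1 + a) * J' ^ m * (x' / (x' ^ 2 + (ε * J' ^ (-κ) * L') ^ 2)) -
        L ^ (1 + a) * J ^ m * (x / (x ^ 2 + (ε * J ^ (-κ) * L) ^ 2))| ≤
      C * (η * (L ^ (a - 1) * J ^ (m + 2 * κ))) := by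
  obtain ⟨c1, hc1⟩ : ∃ c1 : ℝ, c1 = |1 + a| * 2 ^ |1 + a - 1| := ⟨_, rfl⟩
  obtain ⟨c2, hc2⟩ : ∃ c2 : ℝ, c2 = |m| * 2 ^ |m - 1| := ⟨_, rfl⟩
  obtain ⟨c3, hc3⟩ : ∃ c3 : ℝ, c3 = |-κ| * 2 ^ |-κ - 1| := ⟨_, rfl⟩
  have c10 : 0 ≤ c1 := by rw [hc1]; positivity
  have c20 : 0 ≤ c2 := by rw [hc2]; positivity
  have c30 : 0 ≤ c3 := by rw [hc3]; positivity
  obtain ⟨CW, hCW⟩ : ∃ CW : ℝ, CW = c1 * (1 + c2) + c2 := ⟨_, rfl⟩
  obtain ⟨CA, hCA⟩ : ∃ CA : ℝ, CA = 2 * c3 + 1 := ⟨_, rfl⟩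
  obtain ⟨c, hc⟩ : ∃ c : ℝ, c = 2 ^ (-κ) / 2 := ⟨_, rfl⟩
  have CW0 : 0 ≤ CW := by rw [hCW]; positivity
  have CA0 : 0 ≤ CA := by rw [hCA]; positivity
  have c0 : 0 < c := by rw [hc]; positivity
  obtain ⟨CF, hCF⟩ : ∃ CF : ℝ, CF = 1 / (4 * c) + 1 / c ^ 2 +
    (CA * ε) * (1 + (1 + CA)) / (2 * c ^ 2) := ⟨_, rfl⟩
  have CF0 : 0 ≤ CF := by rw [hCF]; positivity
  refine ⟨CW / (2 * c * ε) + CF / ε ^ 2, by positivity, ?_⟩
  intro L L' J J' η x x' hL hJ hLJ h2η hL' hJ' hx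
  have hη : 0 ≤ η := (abs_nonneg _).trans hx
  have J0 : 0 < J := by linarith
  have l1 := (abs_le.1 hL').1
  have l2 := (abs_le.1 hL').2
  have j1 := (abs_le.1 hJ').1
  have j2 := (abs_le.1 hJ').2
  have L0' : 0 < L' := by linarith
  have J0' : 0 < J' := by linarith
  have r1 := rpow_diff (p := 1 + a) hL (y := L') (by linarith) (by linarith)
  have r2 := rpow_diff (p := m) J0 (y := J') (by linarith) (by linarith)
  have r3 := rpow_diff (p := -κ) J0 (y := J') (by linarith) (by linarith)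
  rw [← hc1] at r1
  rw [← hc2] at r2
  rw [← hc3] at r3
  have e1 : L ^ (1 + a - 1) = L ^ a := by congr 1; ring
  have e2 : L ^ (1 + a) = L * L ^ a := by rw [Real.rpow_add hL, Real.rpow_one]
  have e3 : J ^ (m - 1) = J ^ m / J := Real.rpow_sub_one J0.ne' m
  have e4 : J ^ (-κ - 1) = J ^ (-κ) / J := Real.rpow_sub_one J0.ne' (-κ)
  have e5 : J ^ (-κ) = (J ^ κ)⁻¹ := Real.rpow_neg J0.le κ
  have e6 : L ^ (a - 1) = L ^ a / L := Real.rpow_sub_one hL.ne' a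
  have e7 : J ^ (m + 2 * κ) = J ^ m * (J ^ κ) ^ 2 := by
    rw [Real.rpow_add J0, mul_comm 2 κ, Real.rpow_mul J0.le]
    norm_num
  have R' : 2 ^ (-κ) * J ^ (-κ) ≤ J' ^ (-κ) := by
    rw [← Real.mul_rpow (by norm_num) J0.le]
    exact Real.rpow_le_rpow_of_nonpos J0' (by linarith) (by linarith)
  have k1 : 1 ≤ J ^ κ := Real.one_le_rpow hJ (by linarith)
  have P0 : 0 < L ^ a := Real.rpow_pos_of_pos hL a
  have Q0 : 0 < J ^ m := Real.rpow_pos_of_pos J0 m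
  have S0 : 0 < J' ^ m := Real.rpow_pos_of_pos J0' m
  have T0 : 0 < J' ^ (-κ) := Real.rpow_pos_of_pos J0' (-κ)
  rw [e1, e2] at r1
  rw [e3] at r2
  rw [e4, e5] at r3
  rw [e5] at R'
  rw [e2, e5, e6, e7]
  generalize L ^ a = P at *
  generalize J ^ m = Q at *
  generalize J ^ κ = k at *
  generalize L' ^ (1 + a) = P' at *
  generalize J' ^ m = Q' at *
  generalize J' ^ (-κ) = T at *
  have k0 : 0 < k := by linarith
  have g1 : |P' - L * P| ≤ c1 * (η * P) := by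
    refine r1.trans ?_
    gcongr
  have g2 : |Q' - Q| ≤ c2 * (η * (Q / J)) := by
    refine r2.trans ?_
    gcongr
  have g3 : |T - k⁻¹| ≤ c3 * (η * (k⁻¹ / J)) := by
    refine r3.trans ?_
    gcongr
  have ηJ : η / J ≤ 1 := by
    rw [div_le_one J0]
    linarith
  have LJ : L / J ≤ 1 := by
    rw [div_le_one J0]
    linarith
  have g2' : Q' ≤ (1 + c2) * Q := by
    have h1 := (abs_le.1 g2).2
    have h2 : c2 * (η * (Q / J)) = c2 * Q * (η / J) := by ring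
    have h3 : c2 * Q * (η / J) ≤ c2 * Q * 1 := mul_le_mul_of_nonneg_left ηJ (by positivity)
    linarith
  -- the weight
  have w1 : |P' * Q' - L * P * Q| ≤ CW * (η * (P * Q)) := by
    have h1 : P' * Q' - L * P * Q = (P' - L * P) * Q' + L * P * (Q' - Q) := by ring
    rw [h1]
    refine (abs_add_le _ _).trans ?_
    rw [abs_mul, abs_mul, abs_of_pos S0, abs_of_pos (mul_pos hL P0)]
    have h2 := mul_le_mul g1 g2' S0.le (by positivity)
    have h3 : L * P * |Q' - Q| ≤ L * P * (c2 * (η * (Q / J))) :=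
      mul_le_mul_of_nonneg_left g2 (by positivity)
    have h4 : L * P * (c2 * (η * (Q / J))) = c2 * (η * (P * Q)) * (L / J) := by ring
    have h5 : c2 * (η * (P * Q)) * (L / J) ≤ c2 * (η * (P * Q)) * 1 :=
      mul_le_mul_of_nonneg_left LJ (by positivity)
    have h6 : CW * (η * (P * Q)) = c1 * (η * P) * ((1 + c2) * Q) + c2 * (η * (P * Q)) := by
      rw [hCW]
      ring
    rw [h6]
    linarith
  -- the width
  obtain ⟨A, hA⟩ : ∃ A : ℝ, A = ε * k⁻¹ * L := ⟨_, rfl⟩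
  obtain ⟨A', hA'⟩ : ∃ A' : ℝ, A' = ε * T * L' := ⟨_, rfl⟩
  have A0 : 0 < A := by rw [hA]; positivity
  have ki : k⁻¹ ≤ 1 := inv_le_one_of_one_le₀ k1
  have ki0 : 0 < k⁻¹ := inv_pos.2 k0
  have a1 : |A' - A| ≤ CA * ε * k⁻¹ * η := by
    have h1 : A' - A = ε * ((T - k⁻¹) * L' + k⁻¹ * (L' - L)) := by rw [hA, hA']; ring
    rw [h1, abs_mul, abs_of_pos hε]
    have h2 : |(T - k⁻¹) * L' + k⁻¹ * (L' - L)| ≤ CA * (k⁻¹ * η) := by
      refine (abs_add_le _ _).trans ?_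
      rw [abs_mul, abs_mul, abs_of_pos L0', abs_of_pos ki0]
      have h3 := mul_le_mul g3 (show L' ≤ 2 * L by linarith) L0'.le (by positivity)
      have h4 : k⁻¹ * |L' - L| ≤ k⁻¹ * η := mul_le_mul_of_nonneg_left hL' ki0.le
      have h5 : c3 * (η * (k⁻¹ / J)) * (2 * L) = 2 * c3 * (k⁻¹ * η) * (L / J) := by ring
      have h6 : 2 * c3 * (k⁻¹ * η) * (L / J) ≤ 2 * c3 * (k⁻¹ * η) * 1 :=
        mul_le_mul_of_nonneg_left LJ (by positivity)
      have h7 : CA * (k⁻¹ * η) = 2 * c3 * (k⁻¹ * η) + k⁻¹ * η := by rw [hCA]; ring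
      rw [h7]
      linarith
    have h3 := mul_le_mul_of_nonneg_left h2 hε.le
    refine h3.trans (le_of_eq ?_)
    ring
  have a2 : c * A ≤ A' := by
    have h1 : c * A = ε * (2 ^ (-κ) * k⁻¹) * (L / 2) := by rw [hc, hA]; ring
    rw [h1, hA']
    refine mul_le_mul (mul_le_mul_of_nonneg_left R' hε.le) (by linarith) (by positivity)
      (by positivity)
  have a3 : A' ≤ (1 + CA) * A := by
    have h1 := (abs_le.1 a1).2
    have h2 : CA * ε * k⁻¹ * η ≤ CA * ε * k⁻¹ * L :=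
      mul_le_mul_of_nonneg_left (by linarith) (by positivity)
    have h3 : (1 + CA) * A = A + CA * ε * k⁻¹ * L := by rw [hA]; ring
    rw [h3]
    linarith
  have a4 : |A' - A| ≤ (CA * ε) * η := by
    refine a1.trans ?_
    have h1 : CA * ε * k⁻¹ ≤ CA * ε * 1 := mul_le_mul_of_nonneg_left ki (by positivity)
    have h2 := mul_le_mul_of_nonneg_right h1 hη
    linarith
  have f1 := th0b_frac A0 c0 a2 hx (K := CA * ε) (by positivity) a4 (M := 1 + CA) a3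
  rw [← hCF] at f1
  have A0' : 0 < A' := lt_of_lt_of_le (mul_pos c0 A0) a2
  have f2 : |x' / (x' ^ 2 + A' ^ 2)| ≤ 1 / (2 * c * A) := by
    have D0 : 0 < x' ^ 2 + A' ^ 2 := by positivity
    rw [abs_div, abs_of_pos D0, div_le_div_iff₀ D0 (by positivity)]
    have h1 := sq_nonneg (A' - |x'|)
    have h2 : |x'| ^ 2 = x' ^ 2 := sq_abs x'
    have h3 := mul_le_mul_of_nonneg_right a2 (abs_nonneg x')
    clear * - h1 h2 h3
    nlinarith
  rw [← hA, ← hA']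
  generalize x' / (x' ^ 2 + A' ^ 2) = F' at *
  generalize x / (x ^ 2 + A ^ 2) = F at *
  have s1 : P' * Q' * F' - L * P * Q * F = (P' * Q' - L * P * Q) * F' + L * P * Q * (F' - F) := by
    ring
  rw [s1]
  refine (abs_add_le _ _).trans ?_
  rw [abs_mul, abs_mul, abs_of_pos (mul_pos (mul_pos hL P0) Q0)]
  have s2 := mul_le_mul w1 f2 (abs_nonneg _) (by positivity)
  have s3 : L * P * Q * |F' - F| ≤ L * P * Q * (CF * (η / A ^ 2)) :=
    mul_le_mul_of_nonneg_left f1 (by positivity)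
  have s4 : CW * (η * (P * Q)) * (1 / (2 * c * A)) = CW / (2 * c * ε) * (η * (P / L * (Q * k))) := by
    rw [hA]
    field_simp
  have s5 : L * P * Q * (CF * (η / A ^ 2)) = CF / ε ^ 2 * (η * (P / L * (Q * k ^ 2))) := by
    rw [hA]
    field_simp
  have s6 : CW / (2 * c * ε) * (η * (P / L * (Q * k))) ≤
      CW / (2 * c * ε) * (η * (P / L * (Q * k ^ 2))) := by
    have : k ≤ k ^ 2 := by
      clear * - k1
      nlinarith
    gcongr
  have s7 : (CW / (2 * c * ε) + CF / ε ^ 2) * (η * (P / L * (Q * k ^ 2))) =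
      CW / (2 * c * ε) * (η * (P / L * (Q * k ^ 2))) +
      CF / ε ^ 2 * (η * (P / L * (Q * k ^ 2))) := by ring
  rw [s7]
  linarith

theorem Th0_diff (E : EY a m κ) (hε : 0 < ε) : ∃ C : ℝ, 0 ≤ C ∧ ∀ (e : Fin d) (V h : Vec d),
    2 * len h ≤ len V → |Th0 e a m κ ε (V + h) - Th0 e a m κ ε V| ≤
      C * (len h * (len V ^ (a - 1) * jb V ^ (m + 2 * κ))) := by
  obtain ⟨C, C0, hC⟩ := th0b_core E.ha E.hm E.hκ hε
  refine ⟨C, C0, fun e V h hh => ?_⟩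
  rcases (len_nonneg V).eq_or_lt with hV | hV
  · have h0 : len h = 0 := le_antisymm (by linarith) (len_nonneg h)
    have hz : h = 0 := by
      funext i
      have := abs_coord_le h i
      rw [h0] at this
      exact abs_eq_zero.1 (le_antisymm this (abs_nonneg _))
    rw [hz, add_zero, sub_self, abs_zero]
    have : 0 ≤ len (0 : Vec d) := len_nonneg _
    have j0 : 0 < jb V := jb_pos V
    positivity
  · have eq1 : V + h - V = h := by abel
    refine hC (len V) (len (V + h)) (jb V) (jb (V + h)) (len h) (V e) ((V + h) e) hV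
      (one_le_jb V) (len_le_jb V) hh ?_ ?_ ?_
    · have h1 := len_le_add_sub (V + h) V
      have h2 := len_le_add_sub V (V + h)
      have eq2 : V - (V + h) = -h := by abel
      rw [eq1] at h1
      rw [eq2, len_neg] at h2
      rw [abs_le]
      constructor <;> linarith
    · have := jb_lip (V + h) V
      rwa [eq1] at this
    · have := abs_coord_le h e
      rw [Pi.add_apply, add_sub_cancel_left]
      exact this

end Pool.Agent.H71.PY
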